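import Mathlib

/-!
# Strongly forcing matrices: definitions
-/

namespace Pool.Agent.H37.Forcing

/-- all entries are `0` or `1` -/
def ZeroOne {n : ℕ} (A : Matrix (Fin n) (Fin n) ℕ) : Prop := ∀ i j, A i j = 0 ∨ A i j = 1

/-- `A` is strongly `Q`-forcing: every entry `1` of `A` lies in a `k × k` submatrix of `A`
(rows and columns in increasing order, not necessarily consecutive) equal to `Q`. -/
def StronglyForcing {n k : ℕ} (Q : Matrix (Fin k) (Fin k) ℕ) (A : Matrix (Fin n) (Fin n) ℕ) :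
    Prop :=
  ∀ r c, A r c = 1 → ∃ ρ γ : Fin k ↪o Fin n,
    r ∈ Set.range ρ ∧ c ∈ Set.range γ ∧ A.submatrix ρ γ = Q

/-- the set of all numbers of `1`-entries of `n × n` strongly `Q`-forcing `(0,1)`-matrices -/
def onesCounts (n : ℕ) {k : ℕ} (Q : Matrix (Fin k) (Fin k) ℕ) : Set ℤ :=
  {t | ∃ A : Matrix (Fin n) (Fin n) ℕ, ZeroOne A ∧ StronglyForcing Q A ∧
    ((∑ i, ∑ j, A i j : ℕ) : ℤ) = t}

end Pool.Agent.H37.Forcing
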