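import Mathlib

/-!
# Complex equiangular tight frames: definitions
-/

namespace Pool.Agent.H37.Etf

open scoped InnerProductSpace

/-- A complex `(N, M)` equiangular tight frame: `N` unit vectors spanning `ℂ^M`, tight, with
`|⟨f i, f j⟩|` independent of `i ≠ j`. -/
structure IsETF {N M : ℕ} (f : Fin N → EuclideanSpace ℂ (Fin M)) : Prop where
  span : Submodule.span ℂ (Set.range f) = ⊤
  unit : ∀ i, ‖f i‖ = 1
  tight : ∃ A : ℝ, 0 < A ∧ ∀ x, ∑ i, ‖⟪x, f i⟫_ℂ‖ ^ 2 = A * ‖x‖ ^ 2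
  equiangular : ∃ c : ℝ, ∀ i j, i ≠ j → ‖⟪f i, f j⟫_ℂ‖ = c

/-- Equivalence of frames: a unitary of `ℂ^M`, a permutation of the vectors and unimodular
scalars. -/
def Equivalent {N M : ℕ} (f g : Fin N → EuclideanSpace ℂ (Fin M)) : Prop :=
  ∃ (U : EuclideanSpace ℂ (Fin M) ≃ₗᵢ[ℂ] EuclideanSpace ℂ (Fin M)) (σ : Equiv.Perm (Fin N))
    (c : Fin N → ℂ), (∀ i, ‖c i‖ = 1) ∧ ∀ i, g i = c i • U (f (σ i))

/-- A conference matrix of order `m`: zero diagonal, `±1` off the diagonal, `W Wᵀ = (m - 1) I`;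
and `Wᵀ = ε W`, so that it is symmetric for `ε = 1` and skew-symmetric for `ε = -1`. -/
structure IsConference (ε : ℤ) {m : ℕ} (W : Matrix (Fin m) (Fin m) ℤ) : Prop where
  diag : ∀ i, W i i = 0
  off : ∀ i j, i ≠ j → W i j = 1 ∨ W i j = -1
  symm : ∀ i j, W j i = ε * W i j
  gram : W * W.transpose = ((m : ℤ) - 1) • (1 : Matrix (Fin m) (Fin m) ℤ)

end Pool.Agent.H37.Etf
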