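import Mathlib
import Pool.Agent.H37.EtfDefs

/-!
# From Hermitian signature matrices to complex equiangular tight frames
-/

namespace Pool.Agent.H37.Etf

open scoped InnerProductSpace
open Matrix

variable {ι : Type*} [Fintype ι] [DecidableEq ι]

lemma exists_frame (M : ℕ) (hM : 1 ≤ M) (hcard : Fintype.card ι = 2 * M) (S : Matrix ι ι ℂ)
    (hS : S.IsHermitian) (hdiag : ∀ i, S i i = 0) (r : ℝ) (hr : r ^ 2 = 2 * M - 1)
    (hsq : S * S = ((2 * M - 1 : ℝ) : ℂ) • (1 : Matrix ι ι ℂ)) :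
    ∃ f : ι → EuclideanSpace ℂ (Fin M),
      (∀ i j, ⟪f i, f j⟫_ℂ = (1 : Matrix ι ι ℂ) i j + S i j / (r : ℂ)) ∧
      ∀ x, ∑ i, ‖⟪x, f i⟫_ℂ‖ ^ 2 = 2 * ‖x‖ ^ 2 := by
  have hM' : (1 : ℝ) ≤ M := by exact_mod_cast hM
  have hr0 : r ≠ 0 := by
    intro h
    rw [h] at hr
    nlinarith
  have hrC : (r : ℂ) ≠ 0 := by exact_mod_cast hr0
  set P : Matrix ι ι ℂ := (1 / 2 : ℂ) • (1 + (r : ℂ)⁻¹ • S) with hP
  have hPP : P * P = P := by
    rw [hP]
    simp only [mul_add, add_mul, one_mul, mul_one, smul_mul_assoc,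
      mul_smul_comm, hsq]
    have h2 : ((2 * M - 1 : ℝ) : ℂ) = (r : ℂ) ^ 2 := by rw [← hr]; push_cast; ring
    rw [h2]
    ext i j
    simp only [Matrix.smul_apply, Matrix.add_apply, smul_eq_mul]
    field_simp
    ring
  have hPH : P.conjTranspose = P := by
    rw [hP, conjTranspose_smul, conjTranspose_add, conjTranspose_one, conjTranspose_smul]
    have : S.conjTranspose = S := hS
    rw [this]
    simp
  have htr : P.trace = (M : ℂ) := by
    rw [hP, trace_smul, trace_add, trace_one, trace_smul, hcard]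
    have : S.trace = 0 := by
      rw [Matrix.trace]
      exact Finset.sum_eq_zero (fun i _ => hdiag i)
    rw [this]
    simp
  set p := Matrix.toEuclideanLin P with hp
  have hpx : ∀ x : EuclideanSpace ℂ ι, ∀ i, p x i = ∑ j, P i j * x j := by
    intro x i
    rfl
  have hpp : ∀ x, p (p x) = p x := by
    intro x
    have h1 : (WithLp.toLp 2 (P *ᵥ (P *ᵥ x.ofLp)) : EuclideanSpace ℂ ι) =
        WithLp.toLp 2 (P *ᵥ x.ofLp) := by
      rw [Matrix.mulVec_mulVec, hPP]
    exact h1
  have hsym : p.IsSymmetric := Matrix.isSymmetric_toEuclideanLin_iff.2 hPH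
  have hproj : LinearMap.IsProj (LinearMap.range p) p := by
    constructor
    · intro x; exact LinearMap.mem_range_self p x
    · rintro x ⟨y, rfl⟩
      exact hpp y
  have hfin : Module.finrank ℂ (LinearMap.range p) = M := by
    have h1 := hproj.trace
    have h2 : LinearMap.trace ℂ (EuclideanSpace ℂ ι) p = P.trace := by
      rw [hp, Matrix.toEuclideanLin_eq_toLin_orthonormal, Matrix.trace_toLin_eq]
    rw [h2, htr] at h1
    exact_mod_cast h1.symm
  let b := (stdOrthonormalBasis ℂ (LinearMap.range p)).reindex (finCongr hfin)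
  let φ := b.repr
  let g : ι → LinearMap.range p := fun i => ⟨p (EuclideanSpace.single i 1), LinearMap.mem_range_self p _⟩
  refine ⟨fun i => ((√2 : ℝ) : ℂ) • φ (g i), fun i j => ?_, fun x => ?_⟩
  · rw [inner_smul_left, inner_smul_right, LinearIsometryEquiv.inner_map_map]
    have h1 : ⟪g i, g j⟫_ℂ = P i j := by
      show ⟪p (EuclideanSpace.single i 1), p (EuclideanSpace.single j 1)⟫_ℂ = P i j
      rw [hsym, hpp, EuclideanSpace.inner_single_left, hpx]
      simp
    rw [h1, Complex.conj_ofReal, ← mul_assoc, ← Complex.ofReal_mul, Real.mul_self_sqrt (by norm_num)]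
    rw [hP]
    simp only [Matrix.smul_apply, Matrix.add_apply, smul_eq_mul]
    push_cast
    field_simp
  · obtain ⟨v, rfl⟩ := φ.surjective x
    have h1 : ∀ i, ‖⟪φ v, ((√2 : ℝ) : ℂ) • φ (g i)⟫_ℂ‖ ^ 2 = 2 * ‖(v : EuclideanSpace ℂ ι) i‖ ^ 2 := by
      intro i
      rw [inner_smul_right, LinearIsometryEquiv.inner_map_map]
      have h2 : ⟪v, g i⟫_ℂ = (starRingEnd ℂ) ((v : EuclideanSpace ℂ ι) i) := by
        show ⟪(v : EuclideanSpace ℂ ι), p (EuclideanSpace.single i 1)⟫_ℂ = _
        rw [← hsym, hproj.map_id _ v.2, EuclideanSpace.inner_single_right]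
        simp
      rw [h2, norm_mul, mul_pow, Complex.norm_real, Real.norm_eq_abs, sq_abs, Real.sq_sqrt (by norm_num)]
      simp
    rw [Finset.sum_congr rfl (fun i _ => h1 i), ← Finset.mul_sum, LinearIsometryEquiv.norm_map]
    congr 1
    rw [← Submodule.norm_coe, EuclideanSpace.norm_sq_eq]

end Pool.Agent.H37.Etf
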