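import Mathlib
import Pool.Agent.H37.EtfBasic

/-!
# Signature matrices: from a signature matrix to a frame, doubling, two-block matrices
-/

namespace Pool.Agent.H37.Etf

open scoped InnerProductSpace
open Matrix

/-- Hermitian matrix with zero diagonal, unimodular off-diagonal entries and square
`(card - 1) I` -/
structure Sig {ι : Type*} [Fintype ι] [DecidableEq ι] (S : Matrix ι ι ℂ) : Prop where
  herm : S.IsHermitian
  diag : ∀ i, S i i = 0
  off : ∀ i j, i ≠ j → ‖S i j‖ = 1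
  sq : S * S = ((Fintype.card ι : ℂ) - 1) • (1 : Matrix ι ι ℂ)

variable {ι : Type*} [Fintype ι] [DecidableEq ι]

lemma Sig.exists_etf {S : Matrix ι ι ℂ} (hS : Sig S) (M : ℕ) (hM : 1 ≤ M)
    (hcard : Fintype.card ι = 2 * M) :
    ∃ (e : Fin (2 * M) ≃ ι) (f : Fin (2 * M) → EuclideanSpace ℂ (Fin M)), IsETF f ∧
      ∀ i j, i ≠ j → ⟪f i, f j⟫_ℂ = S (e i) (e j) / ((√(2 * M - 1) : ℝ) : ℂ) := by
  have hM' : (1 : ℝ) ≤ M := by exact_mod_cast hM
  have hr : (√(2 * M - 1 : ℝ)) ^ 2 = 2 * M - 1 := Real.sq_sqrt (by linarith)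
  have hpos : 0 < √(2 * M - 1 : ℝ) := Real.sqrt_pos.2 (by linarith)
  have hsq := hS.sq
  rw [hcard] at hsq
  obtain ⟨f, hf, ht⟩ := exists_frame M hM hcard S hS.herm hS.diag _ hr
    (by rw [hsq]; push_cast; rfl)
  let e : Fin (2 * M) ≃ ι := (finCongr hcard.symm).trans (Fintype.equivFin ι).symm
  have hinj : ∀ i j, i ≠ j → e i ≠ e j := fun i j h h' => h (e.injective h')
  have hoff : ∀ i j, i ≠ j → ⟪f (e i), f (e j)⟫_ℂ = S (e i) (e j) / ((√(2 * M - 1) : ℝ) : ℂ) := by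
    intro i j hij
    rw [hf, Matrix.one_apply_ne (hinj i j hij), zero_add]
  have htight : ∀ x, ∑ i, ‖⟪x, f (e i)⟫_ℂ‖ ^ 2 = 2 * ‖x‖ ^ 2 := by
    intro x
    rw [← ht x]
    exact Equiv.sum_comp e (fun i => ‖⟪x, f i⟫_ℂ‖ ^ 2)
  refine ⟨e, fun i => f (e i), ⟨?_, ?_, ?_, ?_⟩, hoff⟩
  · rw [← Submodule.orthogonal_eq_bot_iff, Submodule.eq_bot_iff]
    intro x hx
    have h0 : ∀ i, ⟪x, f (e i)⟫_ℂ = 0 := by
      intro i
      rw [Submodule.mem_orthogonal'] at hx
      exact hx _ (Submodule.subset_span ⟨i, rfl⟩)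
    have h1 := htight x
    simp only [h0, norm_zero, ne_eq, OfNat.ofNat_ne_zero, not_false_eq_true, zero_pow,
      Finset.sum_const_zero] at h1
    have h2 : ‖x‖ ^ 2 = 0 := by linarith
    exact norm_eq_zero.1 (pow_eq_zero_iff (two_ne_zero) |>.1 h2)
  · intro i
    have h1 : ⟪f (e i), f (e i)⟫_ℂ = 1 := by
      rw [hf, hS.diag, Matrix.one_apply_eq]; simp
    have h2 : ((‖f (e i)‖ : ℂ)) ^ 2 = 1 := by
      rw [← h1, inner_self_eq_norm_sq_to_K]; rfl
    have h3 : ‖f (e i)‖ ^ 2 = 1 := by exact_mod_cast h2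
    have h4 := norm_nonneg (f (e i))
    nlinarith
  · exact ⟨2, by norm_num, htight⟩
  · refine ⟨1 / √(2 * M - 1), fun i j hij => ?_⟩
    rw [hoff i j hij, norm_div, hS.off _ _ (hinj i j hij), Complex.norm_real, Real.norm_eq_abs,
      abs_of_pos hpos]

lemma sig_block {A B : Matrix ι ι ℂ} (hA : A.IsHermitian) (hAd : ∀ i, A i i = 0)
    (hAo : ∀ i j, i ≠ j → ‖A i j‖ = 1) (hB : ∀ i j, ‖B i j‖ = 1) (hAB : A * B = B * A)
    (hBB : Bᴴ * B = B * Bᴴ)
    (hsq : A * A + B * Bᴴ = ((2 * (Fintype.card ι : ℂ)) - 1) • (1 : Matrix ι ι ℂ)) :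
    Sig (fromBlocks A B Bᴴ (-A)) := by
  have hAB' : Bᴴ * A = A * Bᴴ := by
    have := congrArg conjTranspose hAB
    rw [conjTranspose_mul, conjTranspose_mul, show Aᴴ = A from hA] at this
    exact this
  refine ⟨?_, ?_, ?_, ?_⟩
  · rw [IsHermitian, fromBlocks_conjTranspose, conjTranspose_conjTranspose, conjTranspose_neg,
      show Aᴴ = A from hA]
  · rintro (i | i)
    · rw [fromBlocks_apply₁₁]; exact hAd i
    · rw [fromBlocks_apply₂₂, neg_apply, hAd, neg_zero]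
  · rintro (i | i) (j | j) hij
    · rw [fromBlocks_apply₁₁]; exact hAo i j (fun h => hij (by rw [h]))
    · rw [fromBlocks_apply₁₂]; exact hB i j
    · rw [fromBlocks_apply₂₁, conjTranspose_apply, norm_star]; exact hB j i
    · rw [fromBlocks_apply₂₂, neg_apply, norm_neg]; exact hAo i j (fun h => hij (by rw [h]))
  · rw [fromBlocks_multiply]
    have h1 : A * B + B * -A = 0 := by rw [mul_neg, hAB, add_neg_cancel]
    have h2 : Bᴴ * A + -A * Bᴴ = 0 := by rw [neg_mul, hAB', add_neg_cancel]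
    have h3 : Bᴴ * B + -A * -A = A * A + B * Bᴴ := by rw [neg_mul_neg, hBB, add_comm]
    rw [h1, h2, h3, hsq, Fintype.card_sum, ← fromBlocks_one, fromBlocks_smul, smul_zero]
    congr 2 <;> (push_cast; ring)

/-- doubling -/
lemma Sig.double {S : Matrix ι ι ℂ} (hS : Sig S) :
    Sig (fromBlocks S (S - Complex.I • (1 : Matrix ι ι ℂ)) (S - Complex.I • (1 : Matrix ι ι ℂ))ᴴ
      (-S)) := by
  have hH : (S - Complex.I • (1 : Matrix ι ι ℂ))ᴴ = S + Complex.I • (1 : Matrix ι ι ℂ) := by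
    rw [conjTranspose_sub, show Sᴴ = S from hS.herm, conjTranspose_smul, conjTranspose_one,
      Complex.star_def, Complex.conj_I, neg_smul, sub_neg_eq_add]
  have hZ : (Complex.I • (1 : Matrix ι ι ℂ)) * (Complex.I • (1 : Matrix ι ι ℂ)) = -1 := by
    rw [smul_mul_smul_comm, Complex.I_mul_I, one_mul, neg_smul, one_smul]
  have hZS : S * (Complex.I • (1 : Matrix ι ι ℂ)) = (Complex.I • (1 : Matrix ι ι ℂ)) * S := by
    rw [mul_smul_comm, smul_mul_assoc, mul_one, one_mul]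
  have hc : (S - Complex.I • (1 : Matrix ι ι ℂ)) * (S + Complex.I • (1 : Matrix ι ι ℂ)) =
      S * S + 1 := by
    rw [sub_mul, mul_add, mul_add, hZ, hZS]
    abel
  have hc' : (S + Complex.I • (1 : Matrix ι ι ℂ)) * (S - Complex.I • (1 : Matrix ι ι ℂ)) =
      S * S + 1 := by
    rw [add_mul, mul_sub, mul_sub, hZ, hZS]
    abel
  refine sig_block hS.herm hS.diag hS.off ?_ ?_ ?_ ?_
  · intro i j
    rw [Matrix.sub_apply, Matrix.smul_apply]
    by_cases h : i = j
    · subst h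
      rw [hS.diag, one_apply_eq]
      simp
    · rw [one_apply_ne h]
      simpa using hS.off i j h
  · rw [mul_sub, sub_mul, mul_smul_comm, smul_mul_assoc, mul_one, one_mul]
  · rw [hH, hc, hc']
  · rw [hH, hc, hS.sq]
    ext i j
    simp only [Matrix.add_apply, Matrix.smul_apply, smul_eq_mul]
    ring

lemma Sig.exists_double.{u} {ι : Type u} [Fintype ι] [DecidableEq ι] {S : Matrix ι ι ℂ}
    (hS : Sig S) (k : ℕ) :
    ∃ (κ : Type u) (_ : Fintype κ) (_ : DecidableEq κ) (S' : Matrix κ κ ℂ), Sig S' ∧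
      Fintype.card κ = 2 ^ k * Fintype.card ι ∧
      ∃ e : ι → κ, Function.Injective e ∧ ∀ i j, S' (e i) (e j) = S i j := by
  induction k with
  | zero => exact ⟨ι, inferInstance, inferInstance, S, hS, by simp, id, Function.injective_id,
      fun _ _ => rfl⟩
  | succ k ih =>
    obtain ⟨κ, h1, h2, S', hS', hc, e, he, heS⟩ := ih
    refine ⟨κ ⊕ κ, inferInstance, inferInstance, _, hS'.double, ?_, fun i => Sum.inl (e i),
      fun i j h => he (Sum.inl_injective h), fun i j => ?_⟩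
    · rw [Fintype.card_sum, hc]
      ring
    · rw [fromBlocks_apply₁₁, heS]

end Pool.Agent.H37.Etf
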