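import Mathlib
import Pool.Agent.H37.EtfDefs

/-!
# Cores of conference matrices: Paley matrices and normalised conference matrices
-/

namespace Pool.Agent.H37.Etf

open Matrix Finset

/-- the core of a conference matrix of order `card + 1` -/
structure Core {ι : Type*} [Fintype ι] [DecidableEq ι] (ε : ℤ) (C : Matrix ι ι ℤ) : Prop where
  diag : ∀ i, C i i = 0
  off : ∀ i j, i ≠ j → C i j = 1 ∨ C i j = -1
  symm : ∀ i j, C j i = ε * C i j
  gram : ∀ i j, ∑ l, C i l * C j l = if i = j then (Fintype.card ι : ℤ) - 1 else -1
  row : ∀ i, ∑ l, C i l = 0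

section Paley

variable {F : Type*} [Field F] [Fintype F] [DecidableEq F]

lemma paley_sum (hF : ringChar F ≠ 2) {a b : F} (hab : a ≠ b) :
    ∑ l, quadraticChar F (a - l) * quadraticChar F (b - l) = -1 := by
  have hd : a - b ≠ 0 := sub_ne_zero.2 hab
  have hbij : Function.Bijective (fun t : F => a - (a - b) * t) := by
    rw [Fintype.bijective_iff_injective_and_card]
    refine ⟨fun s t hst => ?_, rfl⟩
    have h1 : (a - b) * s = (a - b) * t := sub_right_injective hst
    exact mul_left_cancel₀ hd h1
  rw [← hbij.sum_comp]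
  have h1 : ∀ t : F, quadraticChar F (a - (a - (a - b) * t)) *
      quadraticChar F (b - (a - (a - b) * t)) =
      quadraticChar F (-1) * (quadraticChar F t * quadraticChar F (1 - t)) := by
    intro t
    have e1 : a - (a - (a - b) * t) = (a - b) * t := by ring
    have e2 : b - (a - (a - b) * t) = (a - b) * ((-1) * (1 - t)) := by ring
    rw [e1, e2, map_mul, map_mul, map_mul]
    have h3 := quadraticChar_sq_one hd
    linear_combination (quadraticChar F t * quadraticChar F (-1) * quadraticChar F (1 - t)) * h3
  rw [sum_congr rfl (fun t _ => h1 t), ← mul_sum]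
  have h2 : ∑ t : F, quadraticChar F t * quadraticChar F (1 - t) = - quadraticChar F (-1) := by
    have h3 := jacobiSum_nontrivial_inv (F := F) (χ := quadraticChar F) (quadraticChar_ne_one hF)
    rw [MulChar.IsQuadratic.inv (quadraticChar_isQuadratic F)] at h3
    exact h3
  rw [h2]
  have h4 := quadraticChar_sq_one (F := F) (neg_ne_zero.2 one_ne_zero : (-1 : F) ≠ 0)
  linear_combination -h4

lemma core_paley (hF : ringChar F ≠ 2) :
    Core (quadraticChar F (-1)) (fun a b : F => quadraticChar F (a - b)) := by
  refine ⟨?_, ?_, ?_, ?_, ?_⟩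
  · intro i
    rw [sub_self, MulChar.map_zero]
  · intro i j hij
    exact quadraticChar_dichotomy (sub_ne_zero.2 hij)
  · intro i j
    rw [← map_mul]
    congr 1
    ring
  · intro i j
    split_ifs with h
    · subst h
      have h1 : ∀ l : F, quadraticChar F (i - l) * quadraticChar F (i - l) =
          if l ∈ (univ.erase i) then 1 else 0 := by
        intro l
        split_ifs with hl
        · have hl' : i - l ≠ 0 := sub_ne_zero.2 (ne_of_mem_erase hl).symm
          rw [← sq, quadraticChar_sq_one hl']
        · have : l = i := by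
            by_contra h
            exact hl (mem_erase.2 ⟨h, mem_univ _⟩)
          rw [this, sub_self, MulChar.map_zero, mul_zero]
      rw [sum_congr rfl (fun l _ => h1 l), ← sum_filter, filter_mem_eq_inter, univ_inter,
        sum_const, card_erase_of_mem (mem_univ _), card_univ]
      have : 1 ≤ Fintype.card F := Fintype.card_pos
      simp [this]
    · exact paley_sum hF h
  · intro i
    have h := Equiv.sum_comp (Equiv.subLeft i) (fun l => quadraticChar F l)
    exact h.trans (quadraticChar_sum_zero hF)

end Paley

lemma exists_core_of_primePow {n : ℕ} (hn : IsPrimePow n) :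
    (n % 4 = 1 → ∃ (F : Type) (_ : Fintype F) (_ : DecidableEq F) (C : Matrix F F ℤ),
      Fintype.card F = n ∧ Core 1 C) ∧
    (n % 4 = 3 → ∃ (F : Type) (_ : Fintype F) (_ : DecidableEq F) (C : Matrix F F ℤ),
      Fintype.card F = n ∧ Core (-1) C) := by
  classical
  obtain ⟨p, k, hp, hk, rfl⟩ := hn
  have hp' : p.Prime := hp.nat_prime
  have : Fact p.Prime := ⟨hp'⟩
  let F := GaloisField p k
  let _ : Fintype F := Fintype.ofFinite F
  have hcard : Fintype.card F = p ^ k := by
    rw [← Nat.card_eq_fintype_card]
    exact GaloisField.card p k hk.ne'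
  have hF : (p ^ k) % 2 = 1 → ringChar F ≠ 2 := by
    intro h h2
    have h3 : ringChar F = p := ringChar.eq F p
    rw [h3] at h2
    subst h2
    have : 2 ∣ 2 ^ k := dvd_pow_self 2 hk.ne'
    omega
  refine ⟨fun h => ?_, fun h => ?_⟩
  · have hF' := hF (by omega)
    refine ⟨F, inferInstance, inferInstance, fun a b => quadraticChar F (a - b), hcard, ?_⟩
    have := core_paley hF'
    rw [quadraticChar_neg_one hF', hcard, ZMod.χ₄_nat_eq_if_mod_four] at this
    rw [if_neg (by omega), if_pos h] at this
    exact this
  · have hF' := hF (by omega)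
    refine ⟨F, inferInstance, inferInstance, fun a b => quadraticChar F (a - b), hcard, ?_⟩
    have := core_paley hF'
    rw [quadraticChar_neg_one hF', hcard, ZMod.χ₄_nat_eq_if_mod_four] at this
    rw [if_neg (by omega), if_neg (by omega)] at this
    exact this

/-- the normalised core of a conference matrix -/
lemma core_of_conference {ε : ℤ} (hε : ε * ε = 1) {n : ℕ}
    {W : Matrix (Fin (n + 1)) (Fin (n + 1)) ℤ} (hW : IsConference ε W) :
    Core ε (fun i j : Fin n => W 0 i.succ * W i.succ j.succ * W 0 j.succ) := by
  have hsq : ∀ i : Fin n, W 0 i.succ * W 0 i.succ = 1 := by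
    intro i
    rcases hW.off 0 i.succ (Fin.succ_ne_zero i).symm with h | h <;> rw [h] <;> norm_num
  have hgram : ∀ i j, ∑ l, W i l * W j l = if i = j then (n : ℤ) else 0 := by
    intro i j
    have h1 := congrFun (congrFun hW.gram i) j
    rw [Matrix.mul_apply] at h1
    simp only [Matrix.transpose_apply] at h1
    rw [h1, Matrix.smul_apply, Matrix.one_apply]
    split_ifs <;> simp
  have hgram' : ∀ i j : Fin n, ∑ l : Fin n, W i.succ l.succ * W j.succ l.succ =
      (if i = j then (n : ℤ) else 0) - W i.succ 0 * W j.succ 0 := by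
    intro i j
    have h1 := hgram i.succ j.succ
    rw [Fin.sum_univ_succ] at h1
    have h2 : (i.succ = j.succ) ↔ i = j := Fin.succ_inj
    simp only [h2] at h1
    linarith
  refine ⟨?_, ?_, ?_, ?_, ?_⟩
  · intro i
    rw [hW.diag, mul_zero, zero_mul]
  · intro i j hij
    have h1 := hW.off 0 i.succ (Fin.succ_ne_zero i).symm
    have h2 := hW.off 0 j.succ (Fin.succ_ne_zero j).symm
    have h3 := hW.off i.succ j.succ (fun h => hij (Fin.succ_injective n h))
    rcases h1 with h1 | h1 <;> rcases h2 with h2 | h2 <;> rcases h3 with h3 | h3 <;>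
      rw [h1, h2, h3] <;> norm_num
  · intro i j
    rw [hW.symm i.succ j.succ]
    ring
  · intro i j
    have h1 : ∀ l : Fin n, W 0 i.succ * W i.succ l.succ * W 0 l.succ *
        (W 0 j.succ * W j.succ l.succ * W 0 l.succ) =
        (W 0 i.succ * W 0 j.succ) * (W i.succ l.succ * W j.succ l.succ) := by
      intro l
      have := hsq l
      linear_combination (W 0 i.succ * W i.succ l.succ * W 0 j.succ * W j.succ l.succ) * this
    rw [sum_congr rfl (fun l _ => h1 l), ← mul_sum, hgram', hW.symm 0 i.succ, hW.symm 0 j.succ,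
      Fintype.card_fin]
    have hi := hsq i
    have hj := hsq j
    split_ifs with h
    · subst h
      linear_combination (n - ε * ε * (1 + W 0 i.succ * W 0 i.succ)) * hi - hε
    · linear_combination (- ε * ε * W 0 j.succ * W 0 j.succ) * hi - ε * ε * hj - hε
  · intro i
    have h1 : ∑ l : Fin n, W i.succ l.succ * W 0 l.succ = 0 := by
      have h2 := hgram i.succ 0
      rw [Fin.sum_univ_succ, hW.diag 0, mul_zero, zero_add, if_neg (Fin.succ_ne_zero i)] at h2
      exact h2
    have h3 : ∀ l : Fin n, W 0 i.succ * W i.succ l.succ * W 0 l.succ =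
        W 0 i.succ * (W i.succ l.succ * W 0 l.succ) := fun l => by ring
    rw [sum_congr rfl (fun l _ => h3 l), ← mul_sum, h1, mul_zero]

end Pool.Agent.H37.Etf
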