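import Mathlib
import Pool.Agent.H37.EtfCore
import Pool.Agent.H37.EtfSig

/-!
# Symmetric conference matrices of order `n + 1` give complex ETFs of `2n` vectors in `ℂ^n`
-/

namespace Pool.Agent.H37.Etf

open Matrix

set_option linter.unusedSectionVars false

variable {ι : Type*} [Fintype ι] [DecidableEq ι]

/-- the all-ones matrix -/
def Jm (ι : Type*) : Matrix ι ι ℂ := Matrix.of fun _ _ => 1

lemma Jm_mul_Jm : Jm ι * Jm ι = (Fintype.card ι : ℂ) • Jm ι := by
  ext i j
  simp [Jm, Matrix.mul_apply]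

lemma Jm_conj : (Jm ι)ᴴ = Jm ι := by
  ext i j
  simp [Jm]

section core

variable {ε : ℤ} {C : Matrix ι ι ℤ}

/-- the complex version of the core -/
noncomputable def cx (C : Matrix ι ι ℤ) : Matrix ι ι ℂ := C.map (fun z => (z : ℂ))

lemma Core.mul_Jm (hC : Core ε C) : cx C * Jm ι = 0 := by
  ext i j
  rw [Matrix.mul_apply]
  simp only [cx, Jm, Matrix.map_apply, Matrix.of_apply, mul_one, Matrix.zero_apply]
  have := hC.row i
  exact_mod_cast this

lemma Core.conj (hC : Core ε C) : (cx C)ᴴ = (ε : ℂ) • cx C := by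
  ext i j
  simp only [cx, Matrix.conjTranspose_apply, Matrix.map_apply, Matrix.smul_apply, smul_eq_mul]
  rw [hC.symm i j]
  simp

lemma Core.Jm_mul (hε : ε * ε = 1) (hC : Core ε C) : Jm ι * cx C = 0 := by
  have h1 := congrArg conjTranspose hC.mul_Jm
  rw [conjTranspose_mul, hC.conj, Jm_conj, conjTranspose_zero, mul_smul_comm] at h1
  have h2 : (ε : ℂ) ≠ 0 := by
    intro h
    have : ε = 0 := by exact_mod_cast h
    rw [this] at hε
    norm_num at hε
  rcases smul_eq_zero.1 h1 with h | h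
  · exact absurd h h2
  · exact h

lemma Core.mul_self (hC : Core ε C) :
    cx C * cx C = (ε : ℂ) • ((Fintype.card ι : ℂ) • (1 : Matrix ι ι ℂ) - Jm ι) := by
  ext i j
  rw [Matrix.mul_apply]
  simp only [cx, Jm, Matrix.map_apply, Matrix.smul_apply, Matrix.sub_apply, Matrix.of_apply,
    smul_eq_mul]
  have h1 := hC.gram i j
  have h2 : ∑ l, C i l * C l j = ε * ∑ l, C i l * C j l := by
    rw [Finset.mul_sum]
    apply Finset.sum_congr rfl
    intro l _
    rw [hC.symm j l]
    ring
  have h3 : ∑ l, (C i l : ℂ) * (C l j : ℂ) = ((∑ l, C i l * C l j : ℤ) : ℂ) := by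
    push_cast; rfl
  rw [h3, h2, h1, Matrix.one_apply]
  split_ifs <;> push_cast <;> ring

end core

lemma sig_of_symm_core {C : Matrix ι ι ℤ} (hC : Core 1 C) (hn : 1 ≤ Fintype.card ι) :
    ∃ S : Matrix (ι ⊕ ι) (ι ⊕ ι) ℂ, Sig S := by
  set n : ℝ := (Fintype.card ι : ℝ) with hn'
  have hn1 : (1 : ℝ) ≤ n := by rw [hn']; exact_mod_cast hn
  set t : ℝ := √(2 * n - 1) with ht
  have ht2 : t * t = 2 * n - 1 := Real.mul_self_sqrt (by linarith)
  have ht0 : 0 ≤ t := Real.sqrt_nonneg _
  have ht1 : 1 ≤ t := by nlinarith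
  set x : ℝ := 2 / (1 + t) with hx
  have hxt : x * (1 + t) = 2 := by rw [hx]; field_simp
  have hx0 : 0 ≤ x := by rw [hx]; positivity
  have hx1 : x ≤ 1 := by nlinarith
  have hxeq : (n - 1) * x ^ 2 + 2 * x - 2 = 0 := by
    have h1 : n = (t * t + 1) / 2 := by linarith
    have h2 : (1 + t) ≠ 0 := by linarith
    rw [h1, hx]
    field_simp
    ring
  set y : ℝ := √(1 - x ^ 2) with hy
  have hy2 : y * y = 1 - x ^ 2 := Real.mul_self_sqrt (by nlinarith)
  set K := cx C with hK
  set J := Jm ι with hJ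
  have hKJ : K * J = 0 := hC.mul_Jm
  have hJK : J * K = 0 := hC.Jm_mul (by norm_num)
  have hKK : K * K = (Fintype.card ι : ℂ) • (1 : Matrix ι ι ℂ) - J := by
    have := hC.mul_self
    simpa using this
  have hJJ : J * J = (Fintype.card ι : ℂ) • J := Jm_mul_Jm
  have hKH : Kᴴ = K := by
    have := hC.conj
    simpa using this
  have hJH : Jᴴ = J := Jm_conj
  set a : ℂ := ((1 - x : ℝ) : ℂ) with ha
  set w : ℂ := Complex.I * (y : ℂ) with hw
  set B : Matrix ι ι ℂ := a • (1 : Matrix ι ι ℂ) + (x : ℂ) • J + w • K with hB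
  have hBH : Bᴴ = a • (1 : Matrix ι ι ℂ) + (x : ℂ) • J - w • K := by
    rw [hB]
    simp only [conjTranspose_add, conjTranspose_smul, conjTranspose_one, hJH, hKH]
    have e1 : star a = a := Complex.conj_ofReal _
    have e2 : star (x : ℂ) = (x : ℂ) := Complex.conj_ofReal _
    have e3 : star w = -w := by
      rw [hw, star_mul', Complex.star_def, Complex.conj_I, Complex.conj_ofReal]
      ring
    rw [e1, e2, e3, neg_smul, sub_eq_add_neg]
  have hKdiag : ∀ i, K i i = 0 := by
    intro i
    simp only [hK, cx, Matrix.map_apply, hC.diag i]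
    simp
  have hKoff : ∀ i j, i ≠ j → K i j = 1 ∨ K i j = -1 := by
    intro i j hij
    simp only [hK, cx, Matrix.map_apply]
    rcases hC.off i j hij with h | h
    · left; rw [h]; simp
    · right; rw [h]; simp
  refine ⟨_, sig_block (A := K) (B := B) hKH hKdiag ?_ ?_ ?_ ?_ ?_⟩
  · intro i j hij
    rcases hKoff i j hij with h | h <;> rw [h] <;> simp
  · intro i j
    have e : B i j = a * (1 : Matrix ι ι ℂ) i j + x + w * K i j := by
      rw [hB, Matrix.add_apply, Matrix.add_apply, Matrix.smul_apply, Matrix.smul_apply,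
        Matrix.smul_apply, smul_eq_mul, smul_eq_mul, smul_eq_mul]
      simp [hJ, Jm]
    rw [e]
    by_cases hij : i = j
    · subst hij
      rw [Matrix.one_apply_eq, hKdiag, ha]
      push_cast
      simp
    · rw [Matrix.one_apply_ne hij]
      have h1 : Complex.normSq (a * 0 + x + w * K i j) = 1 := by
        rcases hKoff i j hij with h | h <;> rw [h, hw, Complex.normSq_apply] <;> simp <;>
          nlinarith
      rw [← Real.sqrt_one, ← h1, Complex.norm_def]
  · rw [hB]
    simp only [mul_add, add_mul, mul_smul_comm, smul_mul_assoc, hKJ, hJK, mul_one, one_mul]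
  · rw [hBH, hB]
    simp only [mul_add, add_mul, mul_sub, sub_mul, mul_smul_comm, smul_mul_assoc, hKJ, hJK, mul_one,
      one_mul, smul_zero, hKK, hJJ]
    module
  · have e1 : B * Bᴴ = (a * a) • (1 : Matrix ι ι ℂ) +
        (2 * a * x + (Fintype.card ι : ℂ) * (x * x)) • J - (w * w) • (K * K) := by
      rw [hBH, hB]
      simp only [mul_add, add_mul, mul_sub, sub_mul, mul_smul_comm, smul_mul_assoc, hKJ, hJK,
        mul_one, one_mul, smul_zero, hJJ]
      module
    rw [e1, hKK]
    ext i j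
    simp only [Matrix.add_apply, Matrix.sub_apply, Matrix.smul_apply, smul_eq_mul]
    have hJij : J i j = 1 := rfl
    rw [hJij]
    have hnC : (Fintype.card ι : ℂ) = (n : ℂ) := by rw [hn']; push_cast; rfl
    have hwC : w * w = (x : ℂ) ^ 2 - 1 := by
      rw [hw]
      have : (y : ℂ) * (y : ℂ) = 1 - (x : ℂ) ^ 2 := by exact_mod_cast congrArg (fun r : ℝ => (r : ℂ)) hy2
      linear_combination (Complex.I * Complex.I) * this + (1 - (x : ℂ) ^ 2) * Complex.I_mul_I
    have hxC : ((n : ℂ) - 1) * (x : ℂ) ^ 2 + 2 * (x : ℂ) - 2 = 0 := by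
      exact_mod_cast congrArg (fun r : ℝ => (r : ℂ)) hxeq
    rw [hwC, hnC, ha]
    push_cast
    by_cases hij : i = j
    · subst hij
      rw [Matrix.one_apply_eq]
      ring
    · rw [Matrix.one_apply_ne hij]
      linear_combination hxC

end Pool.Agent.H37.Etf
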