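import Mathlib
import Pool.Agent.H37.EtfSymm

/-!
# A one-parameter family of signature matrices from the core of a skew conference matrix
-/

namespace Pool.Agent.H37.Etf

open Matrix

variable {ι : Type*} [Fintype ι] [DecidableEq ι]

/-- the real parameters of the family -/
lemma exists_params (n a : ℝ) (hn : 3 ≤ n) (ha0 : 0 < a) (ha1 : a < 1 / (2 * n)) :
    ∃ z h : ℝ, z ^ 2 ≤ 1 ∧ h ^ 2 ≤ 1 ∧ (n - 1) * (a ^ 2 + z ^ 2) + 2 * h * z = 2 ∧
      √(1 - a ^ 2) * a = √(1 - z ^ 2) * (h - z) := by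
  have ha6 : a < 1 / 6 := by
    refine ha1.trans_le ?_
    rw [div_le_div_iff₀ (by linarith) (by norm_num)]
    linarith
  have han : (n - 1) * a ^ 2 < 1 := by
    have h1 : a * (2 * n) < 1 := by
      rw [lt_div_iff₀ (by linarith)] at ha1
      exact ha1
    nlinarith
  set c : ℝ := 2 - (n - 1) * a ^ 2 with hc
  have hc1 : 1 < c := by linarith
  have hc2 : c ≤ 2 := by
    have : 0 ≤ (n - 1) * a ^ 2 := by
      apply mul_nonneg (by linarith) (sq_nonneg _)
    linarith
  set z0 : ℝ := √(c / (n + 1)) with hz0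
  have hz0sq : z0 ^ 2 = c / (n + 1) := Real.sq_sqrt (by apply div_nonneg <;> linarith)
  have hz0pos : 0 < z0 := Real.sqrt_pos.2 (by apply div_pos <;> linarith)
  have hz0half : z0 ^ 2 ≤ 1 / 2 := by
    rw [hz0sq, div_le_div_iff₀ (by linarith) (by norm_num)]
    linarith
  let F : ℝ → ℝ := fun z => √(1 - z ^ 2) * (c - (n + 1) * z ^ 2) - 2 * z * (√(1 - a ^ 2) * a)
  have hFc : ContinuousOn F (Set.Icc 0 z0) := by
    apply Continuous.continuousOn
    fun_prop
  have hsa : 0 < √(1 - a ^ 2) := Real.sqrt_pos.2 (by nlinarith)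
  have hF0 : 0 ≤ F 0 := by
    simp only [F]
    norm_num
    linarith
  have hF1 : F z0 ≤ 0 := by
    simp only [F]
    have : c - (n + 1) * z0 ^ 2 = 0 := by
      rw [hz0sq]; field_simp; ring
    rw [this, mul_zero]
    have : 0 ≤ 2 * z0 * (√(1 - a ^ 2) * a) := by positivity
    linarith
  obtain ⟨z, hz, hFz⟩ := intermediate_value_Icc' hz0pos.le hFc ⟨hF1, hF0⟩
  have hz1 : z ^ 2 ≤ z0 ^ 2 := pow_le_pow_left₀ hz.1 hz.2 2
  have hzhalf : z ^ 2 ≤ 1 / 2 := hz1.trans hz0half
  have hzne : z ≠ 0 := by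
    intro h
    rw [h] at hFz
    simp only [F] at hFz
    norm_num at hFz
    linarith
  have hzpos : 0 < z := lt_of_le_of_ne hz.1 (Ne.symm hzne)
  set h : ℝ := (2 - (n - 1) * (a ^ 2 + z ^ 2)) / (2 * z) with hh
  have hhz : 2 * h * z = 2 - (n - 1) * (a ^ 2 + z ^ 2) := by
    rw [hh]; field_simp
  have hsz2 : √(1 - z ^ 2) ^ 2 = 1 - z ^ 2 := Real.sq_sqrt (by linarith)
  have heq : √(1 - a ^ 2) * a = √(1 - z ^ 2) * (h - z) := by
    have h1 : 2 * z * (√(1 - a ^ 2) * a) = 2 * z * (√(1 - z ^ 2) * (h - z)) := by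
      have h2 : F z = 0 := hFz
      simp only [F] at h2
      linear_combination -h2 - √(1 - z ^ 2) * hhz
    exact mul_left_cancel₀ (by positivity) h1
  refine ⟨z, h, by linarith, ?_, by linarith, heq⟩
  -- `|h| ≤ 1`
  have hh0 : 0 ≤ h := by
    rw [hh]
    apply div_nonneg _ (by linarith)
    have h1 : (n + 1) * z ^ 2 ≤ c := by
      have h2 : (n + 1) * z ^ 2 ≤ (n + 1) * z0 ^ 2 := by
        apply mul_le_mul_of_nonneg_left hz1 (by linarith)
      rw [hz0sq] at h2
      have h3 : (n + 1) * (c / (n + 1)) = c := by field_simp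
      linarith
    nlinarith [sq_nonneg z]
  have hz71 : z ≤ 71 / 100 := by nlinarith
  have hsa1 : √(1 - a ^ 2) ≤ 1 := by
    rw [Real.sqrt_le_iff]
    exact ⟨by norm_num, by nlinarith⟩
  have hbound : (√(1 - z ^ 2) * (h - z)) ^ 2 ≤ 1 / 36 := by
    rw [← heq]
    have h1 : √(1 - a ^ 2) * a ≤ 1 / 6 := by nlinarith
    have h2 : 0 ≤ √(1 - a ^ 2) * a := by positivity
    nlinarith
  rw [mul_pow, hsz2] at hbound
  by_contra hcon
  push Not at hcon
  have hgt : 1 < h := by
    by_contra h2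
    push Not at h2
    have h3 : h ^ 2 ≤ 1 := by nlinarith
    linarith
  have h3 : 29 / 100 < h - z := by linarith
  have h4 : (29 / 100) ^ 2 < (h - z) ^ 2 := pow_lt_pow_left₀ h3 (by norm_num) (by norm_num)
  have h5 : (1 / 2) * (h - z) ^ 2 ≤ (1 - z ^ 2) * (h - z) ^ 2 :=
    mul_le_mul_of_nonneg_right (by linarith) (sq_nonneg _)
  norm_num at h4
  linarith

lemma sig_of_skew_core {C : Matrix ι ι ℤ} (hC : Core (-1) C) (hn : 3 ≤ Fintype.card ι)
    (a : ℝ) (ha0 : 0 < a) (ha1 : a < 1 / (2 * (Fintype.card ι : ℝ))) :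
    ∃ S : Matrix (ι ⊕ ι) (ι ⊕ ι) ℂ, Sig S ∧ ∀ i j, i ≠ j →
      S (Sum.inl i) (Sum.inl j) = (a : ℂ) + Complex.I * ((√(1 - a ^ 2) : ℝ) : ℂ) * (C i j : ℂ) := by
  set n : ℝ := (Fintype.card ι : ℝ) with hn'
  have hn3 : (3 : ℝ) ≤ n := by rw [hn']; exact_mod_cast hn
  obtain ⟨z, h, hz1, hh1, he1, he2⟩ := exists_params n a hn3 ha0 ha1
  have ha6 : a < 1 / 6 := by
    refine ha1.trans_le ?_
    rw [div_le_div_iff₀ (by linarith) (by norm_num)]
    linarith
  set sa : ℝ := √(1 - a ^ 2) with hsa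
  set sz : ℝ := √(1 - z ^ 2) with hsz
  set sh : ℝ := √(1 - h ^ 2) with hsh
  have hsa2 : sa * sa = 1 - a ^ 2 := Real.mul_self_sqrt (by nlinarith)
  have hsz2 : sz * sz = 1 - z ^ 2 := Real.mul_self_sqrt (by linarith)
  have hsh2 : sh * sh = 1 - h ^ 2 := Real.mul_self_sqrt (by linarith)
  set K := cx C with hK
  set J := Jm ι with hJ
  have hKJ : K * J = 0 := hC.mul_Jm
  have hJK : J * K = 0 := hC.Jm_mul (by norm_num)
  have hKK : K * K = J - (Fintype.card ι : ℂ) • (1 : Matrix ι ι ℂ) := by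
    have := hC.mul_self
    simpa using this
  have hJJ : J * J = (Fintype.card ι : ℂ) • J := Jm_mul_Jm
  have hKH : Kᴴ = -K := by
    have := hC.conj
    simpa using this
  have hJH : Jᴴ = J := Jm_conj
  have hKdiag : ∀ i, K i i = 0 := by
    intro i
    simp only [hK, cx, Matrix.map_apply, hC.diag i]
    simp
  have hKoff : ∀ i j, i ≠ j → K i j = 1 ∨ K i j = -1 := by
    intro i j hij
    simp only [hK, cx, Matrix.map_apply]
    rcases hC.off i j hij with h | h
    · left; rw [h]; simp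
    · right; rw [h]; simp
  -- scalars
  set w : ℂ := Complex.I * (sa : ℂ) with hw
  set u : ℂ := (h : ℂ) + Complex.I * (sh : ℂ) with hu
  set u' : ℂ := (h : ℂ) - Complex.I * (sh : ℂ) with hu'
  set β : ℂ := (z : ℂ) * u with hβ
  set β' : ℂ := (z : ℂ) * u' with hβ'
  set γ : ℂ := Complex.I * (sz : ℂ) * u with hγ
  set γ' : ℂ := -Complex.I * (sz : ℂ) * u' with hγ'
  have hI : Complex.I * Complex.I = -1 := Complex.I_mul_I
  have hsa2C : (sa : ℂ) * sa = 1 - (a : ℂ) ^ 2 := by
    exact_mod_cast congrArg (fun r : ℝ => (r : ℂ)) hsa2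
  have hsz2C : (sz : ℂ) * sz = 1 - (z : ℂ) ^ 2 := by
    exact_mod_cast congrArg (fun r : ℝ => (r : ℂ)) hsz2
  have hsh2C : (sh : ℂ) * sh = 1 - (h : ℂ) ^ 2 := by
    exact_mod_cast congrArg (fun r : ℝ => (r : ℂ)) hsh2
  have he1C : ((n : ℂ) - 1) * ((a : ℂ) ^ 2 + (z : ℂ) ^ 2) + 2 * (h : ℂ) * (z : ℂ) = 2 := by
    exact_mod_cast congrArg (fun r : ℝ => (r : ℂ)) he1
  have he2C : (sa : ℂ) * (a : ℂ) = (sz : ℂ) * ((h : ℂ) - (z : ℂ)) := by
    exact_mod_cast congrArg (fun r : ℝ => (r : ℂ)) he2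
  have huu : u * u' = 1 := by
    rw [hu, hu']
    linear_combination (-Complex.I * Complex.I) * hsh2C - (1 - (h : ℂ) ^ 2) * hI
  have hww : w * w = (a : ℂ) ^ 2 - 1 := by
    rw [hw]
    linear_combination (Complex.I * Complex.I) * hsa2C + (1 - (a : ℂ) ^ 2) * hI
  have hββ : β * β' = (z : ℂ) ^ 2 := by
    rw [hβ, hβ']
    linear_combination (z : ℂ) ^ 2 * huu
  have hγγ : γ * γ' = 1 - (z : ℂ) ^ 2 := by
    rw [hγ, hγ']
    linear_combination (-Complex.I * Complex.I * sz * sz) * huu - Complex.I * Complex.I * hsz2C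
      - (1 - (z : ℂ) ^ 2) * hI
  have hβs : β + β' = 2 * (z : ℂ) * h := by rw [hβ, hβ', hu, hu']; ring
  have hcross : γ - γ' + β * γ' - β' * γ = 2 * Complex.I * (sz * (h - z)) := by
    rw [hβ, hβ', hγ, hγ']
    have e1 : Complex.I * (sz : ℂ) * u - -Complex.I * (sz : ℂ) * u' = 2 * Complex.I * sz * h := by
      rw [hu, hu']; ring
    linear_combination e1 - (2 * Complex.I * z * sz) * huu
  set A : Matrix ι ι ℂ := (-(a : ℂ)) • (1 : Matrix ι ι ℂ) + (a : ℂ) • J + w • K with hA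
  set B : Matrix ι ι ℂ := (1 - β) • (1 : Matrix ι ι ℂ) + β • J + γ • K with hB
  have su : star u = u' := by
    rw [hu, hu', star_add, star_mul', Complex.star_def, Complex.conj_I, Complex.conj_ofReal,
      Complex.conj_ofReal]
    ring
  have hBH : Bᴴ = (1 - β') • (1 : Matrix ι ι ℂ) + β' • J - γ' • K := by
    rw [hB]
    simp only [conjTranspose_add, conjTranspose_smul, conjTranspose_one, hJH, hKH]
    have e1 : star (1 - β) = 1 - β' := by
      rw [hβ, star_sub, star_one, star_mul', su, Complex.star_def, Complex.conj_ofReal]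
    have e2 : star β = β' := by
      rw [hβ, star_mul', su, Complex.star_def, Complex.conj_ofReal]
    have e3 : star γ = γ' := by
      rw [hγ, star_mul', star_mul', su, Complex.star_def, Complex.conj_I, Complex.conj_ofReal]
    rw [e1, e2, e3]
    module
  have hAH : Aᴴ = A := by
    rw [hA]
    simp only [conjTranspose_add, conjTranspose_smul, conjTranspose_one, hJH, hKH]
    have e1 : star (a : ℂ) = (a : ℂ) := Complex.conj_ofReal _
    have e2 : star w = -w := by
      rw [hw, star_mul', Complex.star_def, Complex.conj_I, Complex.conj_ofReal]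
      ring
    rw [star_neg, e1, e2, smul_neg, neg_smul w, neg_neg]
  have hAe : ∀ i j, A i j = -(a : ℂ) * (1 : Matrix ι ι ℂ) i j + a + w * K i j := by
    intro i j
    rw [hA, Matrix.add_apply, Matrix.add_apply, Matrix.smul_apply, Matrix.smul_apply,
      Matrix.smul_apply, smul_eq_mul, smul_eq_mul, smul_eq_mul]
    simp [hJ, Jm]
  have hBe : ∀ i j, B i j = (1 - β) * (1 : Matrix ι ι ℂ) i j + β + γ * K i j := by
    intro i j
    rw [hB, Matrix.add_apply, Matrix.add_apply, Matrix.smul_apply, Matrix.smul_apply,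
      Matrix.smul_apply, smul_eq_mul, smul_eq_mul, smul_eq_mul]
    simp [hJ, Jm]
  have nu : ‖u‖ = 1 := by
    have h1 : Complex.normSq u = 1 := by
      rw [hu, Complex.normSq_apply]; simp; nlinarith
    rw [Complex.norm_def, h1, Real.sqrt_one]
  refine ⟨_, sig_block (A := A) (B := B) hAH ?_ ?_ ?_ ?_ ?_ ?_, ?_⟩
  · intro i
    rw [hAe, Matrix.one_apply_eq, hKdiag]
    ring
  · intro i j hij
    rw [hAe, Matrix.one_apply_ne hij]
    have h1 : Complex.normSq (-(a : ℂ) * 0 + a + w * K i j) = 1 := by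
      rcases hKoff i j hij with h | h <;> rw [h, hw, Complex.normSq_apply] <;> simp <;>
        nlinarith
    rw [← Real.sqrt_one, ← h1, Complex.norm_def]
  · intro i j
    rw [hBe]
    by_cases hij : i = j
    · subst hij
      rw [Matrix.one_apply_eq, hKdiag]
      simp
    · rw [Matrix.one_apply_ne hij, mul_zero, zero_add]
      have h0 : β + γ * K i j = u * ((z : ℂ) + Complex.I * sz * K i j) := by
        rw [hβ, hγ]; ring
      have h1 : Complex.normSq ((z : ℂ) + Complex.I * sz * K i j) = 1 := by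
        rcases hKoff i j hij with h | h <;> rw [h, Complex.normSq_apply] <;> simp <;>
          nlinarith
      rw [h0, norm_mul, nu, one_mul, ← Real.sqrt_one, ← h1, Complex.norm_def]
  · rw [hA, hB]
    simp only [mul_add, add_mul, mul_smul_comm, smul_mul_assoc, hKJ, hJK, mul_one, one_mul,
      smul_zero, hKK, hJJ]
    module
  · rw [hBH, hB]
    simp only [mul_add, add_mul, mul_sub, sub_mul, mul_smul_comm, smul_mul_assoc, hKJ, hJK, mul_one,
      one_mul, smul_zero, hKK, hJJ]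
    module
  · have e1 : B * Bᴴ = ((1 - β) * (1 - β')) • (1 : Matrix ι ι ℂ) +
        ((1 - β) * β' + β * (1 - β') + (Fintype.card ι : ℂ) * (β * β')) • J - (γ * γ') • (K * K)
        + ((1 - β') * γ - (1 - β) * γ') • K := by
      rw [hBH, hB]
      simp only [mul_add, add_mul, mul_sub, mul_smul_comm, smul_mul_assoc, hKJ, hJK,
        mul_one, one_mul, smul_zero, hJJ]
      module
    have e2 : A * A = ((a : ℂ) ^ 2) • (1 : Matrix ι ι ℂ) +
        (-2 * (a : ℂ) ^ 2 + (Fintype.card ι : ℂ) * (a : ℂ) ^ 2) • J + (w * w) • (K * K)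
        - (2 * a * w) • K := by
      rw [hA]
      simp only [mul_add, add_mul, mul_smul_comm, smul_mul_assoc, hKJ, hJK,
        mul_one, one_mul, smul_zero, hJJ]
      module
    have hnC : (Fintype.card ι : ℂ) = (n : ℂ) := by rw [hn']; push_cast; rfl
    have c1 : (1 - β) * (1 - β') + n * (γ * γ') + (a : ℂ) ^ 2 - n * (w * w) = 2 * n - 1 := by
      rw [hγγ, hww]
      linear_combination hββ - hβs - he1C
    have cJ : (1 - β) * β' + β * (1 - β') + n * (β * β') - γ * γ' - 2 * (a : ℂ) ^ 2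
        + n * (a : ℂ) ^ 2 + w * w = 0 := by
      rw [hγγ, hww]
      linear_combination hβs + (n - 2) * hββ + he1C
    have cK : (1 - β') * γ - (1 - β) * γ' - 2 * a * w = 0 := by
      rw [hw]
      linear_combination hcross - 2 * Complex.I * he2C
    rw [e1, e2, hKK]
    ext i j
    simp only [Matrix.add_apply, Matrix.sub_apply, Matrix.smul_apply, smul_eq_mul]
    have hJij : J i j = 1 := rfl
    rw [hJij, hnC]
    have fin : ∀ d k : ℂ, (a : ℂ) ^ 2 * d + (-2 * (a : ℂ) ^ 2 + (n : ℂ) * (a : ℂ) ^ 2) * 1 +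
        (w * w) * (1 - (n : ℂ) * d) - 2 * a * w * k + ((1 - β) * (1 - β') * d +
        ((1 - β) * β' + β * (1 - β') + (n : ℂ) * (β * β')) * 1 - (γ * γ') * (1 - (n : ℂ) * d)
        + ((1 - β') * γ - (1 - β) * γ') * k) = (2 * (n : ℂ) - 1) * d := by
      intro d k
      clear_value β β' γ γ' w u u'
      linear_combination d * c1 + cJ + k * cK
    exact fin _ _
  · intro i j hij
    rw [fromBlocks_apply₁₁, hAe, Matrix.one_apply_ne hij, hw]
    simp [hK, cx]

end Pool.Agent.H37.Etf
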