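import Mathlib

/-!
# Bipartite graphs in which every edge lies in an induced matching of size `k`

Combinatorial core for the strongly identity-forcing matrices problem.
-/

namespace Pool.Agent.H37.Forcing

set_option linter.unusedSectionVars false

open Finset

variable {X Y : Type*}

/-- The pair `(x, c)` lies in an induced matching with `k` edges. -/
def Ind (A : X → Y → Prop) (k : ℕ) (x : X) (c : Y) : Prop :=
  ∃ (ρ : Fin k → X) (γ : Fin k → Y), (∀ a b, A (ρ a) (γ b) ↔ a = b) ∧ ∃ a, ρ a = x ∧ γ a = c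

lemma Ind.flip {A : X → Y → Prop} {k : ℕ} {x : X} {c : Y} (h : Ind A k x c) :
    Ind (flip A) k c x := by
  obtain ⟨ρ, γ, h1, a, h2, h3⟩ := h
  refine ⟨γ, ρ, fun a b => ?_, a, h3, h2⟩
  simp only [_root_.flip, h1]
  exact eq_comm

/-- Every edge lies in an induced matching with `k` edges. -/
def Good (A : X → Y → Prop) (k : ℕ) : Prop := ∀ x c, A x c → Ind A k x c

lemma Good.flip {A : X → Y → Prop} {k : ℕ} (h : Good A k) : Good (flip A) k :=
  fun c x hcx => (h x c hcx).flip

open Classical in
/-- neighbourhood of a row -/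
noncomputable def N [Fintype Y] (A : X → Y → Prop) (x : X) : Finset Y :=
  univ.filter (fun y => A x y)

@[simp] lemma mem_N [Fintype Y] (A : X → Y → Prop) (x : X) (y : Y) : y ∈ N A x ↔ A x y := by
  simp [N]

/-- the data of an induced matching through `(x, c)`, seen from the row `x` -/
structure Dat (A : X → Y → Prop) (k : ℕ) (x : X) (c : Y) (R : Finset X) (V : Finset Y)
    (m : X → Y) : Prop where
  cardR : R.card + 1 = k
  cardV : V.card + 1 = k
  hx : x ∉ R
  hc : c ∉ V
  hV : ∀ y ∈ V, ¬ A x y
  hR : ∀ z ∈ R, ¬ A z c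
  hmV : ∀ z ∈ R, m z ∈ V
  hmA : ∀ z ∈ R, A z (m z)
  hu : ∀ z ∈ R, ∀ y ∈ V, A z y → y = m z
  inj : ∀ z ∈ R, ∀ z' ∈ R, m z = m z' → z = z'

open Classical in
lemma Ind.dat {A : X → Y → Prop} {k : ℕ} {x : X} {c : Y} (h : Ind A k x c) :
    ∃ R V m, Dat A k x c R V m := by
  obtain ⟨ρ, γ, h1, a, rfl, rfl⟩ := h
  have hρ : Function.Injective ρ := fun u v huv => by
    have := (h1 u u).2 rfl
    rw [huv] at this
    exact ((h1 v u).1 this).symm
  have hγ : Function.Injective γ := fun u v huv => by
    have := (h1 u u).2 rfl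
    rw [huv] at this
    exact (h1 u v).1 this
  have hk : 0 < k := lt_of_le_of_lt (Nat.zero_le _) a.2
  obtain ⟨m, key⟩ : ∃ m : X → Y, ∀ b, m (ρ b) = γ b :=
    ⟨Function.extend ρ γ (fun _ => γ a), fun b => hρ.extend_apply _ _ _⟩
  refine ⟨(univ.erase a).image ρ, (univ.erase a).image γ, m, ?_⟩
  constructor
  · rw [card_image_of_injective _ hρ, card_erase_of_mem (mem_univ _), card_univ, Fintype.card_fin]
    omega
  · rw [card_image_of_injective _ hγ, card_erase_of_mem (mem_univ _), card_univ, Fintype.card_fin]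
    omega
  · intro hx
    obtain ⟨b, hb, hb2⟩ := mem_image.1 hx
    exact (mem_erase.1 hb).1 (hρ hb2)
  · intro hx
    obtain ⟨b, hb, hb2⟩ := mem_image.1 hx
    exact (mem_erase.1 hb).1 (hγ hb2)
  · intro y hy
    obtain ⟨b, hb, rfl⟩ := mem_image.1 hy
    rw [h1]
    exact fun h => (mem_erase.1 hb).1 h.symm
  · intro y hy
    obtain ⟨b, hb, rfl⟩ := mem_image.1 hy
    rw [h1]
    exact fun h => (mem_erase.1 hb).1 h
  · intro z hz
    obtain ⟨b, hb, rfl⟩ := mem_image.1 hz
    rw [key]
    exact mem_image_of_mem _ hb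
  · intro z hz
    obtain ⟨b, hb, rfl⟩ := mem_image.1 hz
    rw [key, h1]
  · intro z hz y hy hA
    obtain ⟨b, hb, rfl⟩ := mem_image.1 hz
    obtain ⟨b', hb', rfl⟩ := mem_image.1 hy
    rw [key, (h1 _ _).1 hA]
  · intro z hz z' hz' h
    obtain ⟨b, hb, rfl⟩ := mem_image.1 hz
    obtain ⟨b', hb', rfl⟩ := mem_image.1 hz'
    rw [key, key] at h
    rw [hγ h]

section Fin

variable [Fintype X] [Fintype Y]

/-- number of edges -/
noncomputable def T (A : X → Y → Prop) : ℕ := ∑ x, (N A x).card

lemma T_flip (A : X → Y → Prop) : T (flip A) = T A := by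
  classical
  show ∑ c : Y, (univ.filter (fun x => A x c)).card = ∑ x : X, (univ.filter (fun y => A x y)).card
  simp only [card_filter]
  exact sum_comm

variable {A : X → Y → Prop} {k : ℕ}

lemma deg_le (hA : Good A k) (x : X) (c : Y) (h : A x c) :
    (N A x).card + k ≤ Fintype.card Y + 1 := by
  classical
  obtain ⟨R, V, m, D⟩ := (hA x c h).dat
  have : Disjoint (N A x) V := by
    rw [disjoint_left]
    intro y hy hyV
    exact D.hV y hyV ((mem_N _ _ _).1 hy)
  have h1 := card_le_card (subset_univ (N A x ∪ V))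
  rw [card_union_of_disjoint this, card_univ] at h1
  have := D.cardV
  omega

/-- double counting of incidences -/
lemma sum_p (S : Finset Y) (R : Y → Finset X) [DecidableEq X] [DecidableEq Y] :
    ∑ x, (S.filter (fun c => x ∈ R c)).card = ∑ c ∈ S, (R c).card := by
  simp only [card_filter]
  rw [sum_comm]
  apply sum_congr rfl
  intro c hc
  rw [← card_filter]
  congr 1
  ext x
  simp


/-- everything about the copies through the edges of one row -/
structure Row (A : X → Y → Prop) (k : ℕ) (r : X) (R : Y → Finset X) (V : Y → Finset Y)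
    (m : Y → X → Y) : Prop where
  dat : ∀ c, A r c → Dat A k r c (R c) (V c) (m c)

lemma exists_row (hA : Good A k) (r : X) : ∃ R V m, Row A k r R V m := by
  have h : ∀ c, A r c → ∃ R V m, Dat A k r c R V m := fun c hc => (hA r c hc).dat
  classical
  choose R V m hD using h
  refine ⟨fun c => if hc : A r c then R c hc else ∅, fun c => if hc : A r c then V c hc else ∅,
    fun c x => if hc : A r c then m c hc x else c, ⟨fun c hc => ?_⟩⟩
  simp only [dif_pos hc]
  exact hD c hc

section RowLemmas

variable [DecidableEq X] [DecidableEq Y] {r : X} {R : Y → Finset X} {V : Y → Finset Y}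
  {m : Y → X → Y}

lemma card_split (A : X → Y → Prop) (r x : X) :
    (N A x).card = (N A x \ N A r).card + (N A x ∩ N A r).card := by
  rw [add_comm, card_inter_add_card_sdiff]

lemma Row.p_add (hR : Row A k r R V m) (x : X) :
    (N A x ∩ N A r).card + ((N A r).filter (fun c => x ∈ R c)).card ≤ (N A r).card := by
  rw [← card_union_of_disjoint]
  · apply card_le_card
    intro c hc
    rcases mem_union.1 hc with h | h
    · exact (mem_inter.1 h).2
    · exact (mem_filter.1 h).1
  · rw [disjoint_left]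
    intro c h1 h2
    have h3 := (mem_filter.1 h2)
    have h4 := (mem_N A r c).1 h3.1
    exact (hR.dat c h4).hR x h3.2 ((mem_N A x c).1 (mem_inter.1 h1).1)

lemma Row.sum_p (hR : Row A k r R V m) :
    ∑ x, ((N A r).filter (fun c => x ∈ R c)).card + (N A r).card = k * (N A r).card := by
  rw [Forcing.sum_p]
  have : ∀ c ∈ N A r, (R c).card + 1 = k := fun c hc => (hR.dat c ((mem_N A r c).1 hc)).cardR
  have h2 : ∑ c ∈ N A r, ((R c).card + 1) = ∑ c ∈ N A r, k := sum_congr rfl this
  rw [sum_add_distrib, sum_const, sum_const, smul_eq_mul, smul_eq_mul, mul_one] at h2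
  rw [h2, mul_comm]

lemma Row.p_self (hR : Row A k r R V m) :
    ((N A r).filter (fun c => r ∈ R c)).card = 0 := by
  rw [card_eq_zero, filter_eq_empty_iff]
  intro c hc
  exact (hR.dat c ((mem_N A r c).1 hc)).hx

/-- a row in the copy through `(r, c)` has at most `s + 1` neighbours outside `N r` -/
lemma Row.W_sub (hR : Row A k r R V m) {c : Y} (hc : A r c) {x : X} (hx : x ∈ R c) :
    N A x \ N A r ⊆ insert (m c x) ((univ \ N A r) \ V c) := by
  intro y hy
  rw [mem_sdiff, mem_N, mem_N] at hy
  by_cases hyV : y ∈ V c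
  · rw [mem_insert]
    left
    exact (hR.dat c hc).hu x hx y hyV hy.1
  · rw [mem_insert, mem_sdiff, mem_sdiff, mem_N]
    right
    exact ⟨⟨mem_univ _, hy.2⟩, hyV⟩

lemma Row.card_U (hR : Row A k r R V m) {c : Y} (hc : A r c) :
    ((univ \ N A r) \ V c).card + (N A r).card + k = Fintype.card Y + 1 := by
  have hVO : V c ⊆ univ \ N A r := by
    intro y hy
    rw [mem_sdiff, mem_N]
    exact ⟨mem_univ _, (hR.dat c hc).hV y hy⟩
  have h1 := card_sdiff_add_card_eq_card hVO
  have h2 := card_sdiff_add_card_eq_card (subset_univ (N A r))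
  have h3 := (hR.dat c hc).cardV
  rw [card_univ] at h2
  omega

lemma Row.card_W_le (hR : Row A k r R V m) {s : ℕ}
    (hs : (N A r).card + s + k = Fintype.card Y + 1) {x : X}
    (hx : 0 < ((N A r).filter (fun c => x ∈ R c)).card) :
    (N A x \ N A r).card ≤ s + 1 := by
  obtain ⟨c, hc⟩ := card_pos.1 hx
  rw [mem_filter, mem_N] at hc
  have h1 := card_le_card (hR.W_sub hc.1 hc.2)
  have h2 := hR.card_U hc.1
  have h3 := card_insert_le (m c x) ((univ \ N A r) \ V c)
  omega

end RowLemmas

end Fin

end Pool.Agent.H37.Forcing
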