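import Mathlib
import Pool.Agent.H37.ForcingCore

/-!
# Counting lemmas
-/

namespace Pool.Agent.H37.Forcing

set_option linter.unusedSectionVars false

open Finset

variable {X Y : Type*} [Fintype X] [Fintype Y] {A : X → Y → Prop} {k : ℕ}

/-- edges inside the columns of `N r` -/
lemma sum_inter_le [DecidableEq Y] (r : X) (D : ℕ)
    (hcol : ∀ c, (N (flip A) c).card ≤ D) :
    ∑ x, (N A x ∩ N A r).card ≤ D * (N A r).card := by
  classical
  have h : ∀ x, N A x ∩ N A r = (N A r).filter (fun c => x ∈ N (flip A) c) := by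
    intro x
    ext c
    simp only [mem_inter, mem_filter, mem_N, _root_.flip]
    tauto
  simp only [h]
  rw [sum_p (N A r) (fun c => N (flip A) c)]
  calc ∑ c ∈ N A r, (N (flip A) c).card ≤ ∑ c ∈ N A r, D := sum_le_sum (fun c _ => hcol c)
    _ = D * (N A r).card := by rw [sum_const, smul_eq_mul, mul_comm]

lemma lemA {n : ℕ} (hX : Fintype.card X = n) (hY : Fintype.card Y = n) (hA : Good A k)
    (r : X) (s : ℕ) (hs : (N A r).card + s + k = n + 1) (hk : 2 ≤ k)
    (hrow : ∀ x, (N A x).card ≤ (N A r).card)
    (hcol : ∀ c, (N (flip A) c).card ≤ (N A r).card) :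
    (k - 1 + s : ℤ) * T A ≤ (k - 2) * (N A r).card * (n - k + 1)
      + (s + 1) * ((N A r).card ^ 2 + (k - 1 + s) * (n - 1)) := by
  classical
  obtain ⟨R, V, m, hR⟩ := exists_row hA r
  set Δ := (N A r).card with hΔ
  set p : X → ℕ := fun x => ((N A r).filter (fun c => x ∈ R c)).card with hp
  set Ys : Finset X := univ.filter (fun x => x ≠ r ∧ (N A x \ N A r).card ≤ s + 1) with hYs
  have hsp : ∑ x, p x + Δ = k * Δ := hR.sum_p
  have hO : (univ \ N A r).card + Δ = n := by
    have := card_sdiff_add_card_eq_card (subset_univ (N A r))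
    rw [card_univ] at this
    omega
  have hWO : ∀ x, (N A x \ N A r).card ≤ (univ \ N A r).card := fun x =>
    card_le_card (sdiff_subset_sdiff (subset_univ _) (subset_refl _))
  -- first inequality
  have A1 : T A + k * Δ ≤ Δ * n + (s + 1) * Ys.card + Δ := by
    have h1 : ∀ x, (N A x).card + p x ≤ Δ + (if x ∈ Ys then (s + 1) else 0) := by
      intro x
      have hsplit := card_split A r x
      have hpa := hR.p_add x
      by_cases hxr : x = r
      · subst hxr
        have := hR.p_self
        simp only [hp]
        omega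
      by_cases hxY : x ∈ Ys
      · rw [if_pos hxY]
        have := (mem_filter.1 hxY).2.2
        simp only [hp]
        omega
      · rw [if_neg hxY]
        have hp0 : p x = 0 := by
          by_contra hne
          apply hxY
          rw [hYs, mem_filter]
          refine ⟨mem_univ _, hxr, ?_⟩
          exact hR.card_W_le (by omega) (Nat.pos_of_ne_zero hne)
        rw [hp0]
        exact hrow x
    have h2 := sum_le_sum (fun x (_ : x ∈ (univ : Finset X)) => h1 x)
    rw [sum_add_distrib, sum_add_distrib, sum_const, ← sum_filter, sum_const] at h2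
    rw [filter_mem_eq_inter, univ_inter, card_univ, smul_eq_mul, smul_eq_mul, hX] at h2
    have : T A = ∑ x, (N A x).card := rfl
    nlinarith
  -- second inequality
  have A2 : T A + (k - 2) * Ys.card + (k - 1 + s) ≤ Δ * Δ + (k - 1 + s) * n := by
    have h1 : ∀ x, (N A x \ N A r).card + (if x ∈ Ys then (k - 2) else 0)
        + (if x = r then (k - 1 + s) else 0) ≤ (k - 1 + s) := by
      intro x
      by_cases hxr : x = r
      · subst hxr
        have : x ∉ Ys := by simp [hYs]
        rw [if_neg this, if_pos rfl, sdiff_self]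
        simp
      · rw [if_neg hxr]
        by_cases hxY : x ∈ Ys
        · rw [if_pos hxY]
          have := (mem_filter.1 hxY).2.2
          omega
        · rw [if_neg hxY]
          have := hWO x
          omega
    have h2 := sum_le_sum (fun x (_ : x ∈ (univ : Finset X)) => h1 x)
    rw [sum_add_distrib, sum_add_distrib, sum_const, ← sum_filter, ← sum_filter, sum_const,
      sum_const] at h2
    rw [filter_mem_eq_inter, univ_inter, card_univ, smul_eq_mul, smul_eq_mul, smul_eq_mul, hX,
      filter_eq' univ r, if_pos (mem_univ r), card_singleton] at h2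
    have h3 : T A = ∑ x, (N A x \ N A r).card + ∑ x, (N A x ∩ N A r).card := by
      rw [← sum_add_distrib]
      exact sum_congr rfl (fun x _ => card_split A r x)
    have h4 := sum_inter_le (A := A) r Δ hcol
    nlinarith
  obtain ⟨k', rfl⟩ : ∃ k', k = k' + 2 := ⟨k - 2, by omega⟩
  simp only [Nat.add_sub_cancel] at A2
  have e1 : k' + 2 - 1 = k' + 1 := by omega
  rw [e1] at A2
  zify at A1 A2 hs
  push_cast at A1 A2 hs ⊢
  have hΔ' : (Δ : ℤ) = n - k' - 1 - s := by linarith
  have A1' : (k' : ℤ) * (T A + (k' + 2) * Δ) ≤ k' * (Δ * n + (s + 1) * Ys.card + Δ) :=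
    mul_le_mul_of_nonneg_left A1 (by positivity)
  have A2' : ((s : ℤ) + 1) * (T A + k' * Ys.card + (k' + 1 + s)) ≤ (s + 1) * (Δ * Δ + (k' + 1 + s) * n) :=
    mul_le_mul_of_nonneg_left A2 (by positivity)
  nlinarith [A1', A2']

lemma lemB {n : ℕ} (hX : Fintype.card X = n) (hY : Fintype.card Y = n) (hA : Good A k)
    (D : ℕ) (hrow : ∀ x, (N A x).card ≤ D)
    (hcol : ∀ c, (N (flip A) c).card ≤ D) :
    T A ≤ k + 2 * (n - k) * D := by
  classical
  by_cases h0 : ∀ x c, ¬ A x c
  · have : T A = 0 := by
      unfold T
      apply sum_eq_zero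
      intro x _
      rw [card_eq_zero, eq_empty_iff_forall_notMem]
      intro c hc
      exact h0 x c ((mem_N _ _ _).1 hc)
    omega
  push Not at h0
  obtain ⟨x, c, hxc⟩ := h0
  obtain ⟨R, V, m, hD⟩ := (hA x c hxc).dat
  set RM := insert x R with hRM
  set CM := insert c V with hCM
  have cR : RM.card = k := by rw [hRM, card_insert_of_notMem hD.hx, hD.cardR]
  have cC : CM.card = k := by rw [hCM, card_insert_of_notMem hD.hc, hD.cardV]
  have h1 : ∀ z ∈ RM, (N A z ∩ CM).card ≤ 1 := by
    intro z hz
    rw [hRM, mem_insert] at hz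
    rcases hz with rfl | hz
    · rw [← card_singleton c]
      apply card_le_card
      intro y hy
      rw [mem_inter, mem_N, hCM, mem_insert] at hy
      rcases hy.2 with h | h
      · rw [h]; exact mem_singleton_self _
      · exact absurd hy.1 (hD.hV y h)
    · rw [← card_singleton (m z)]
      apply card_le_card
      intro y hy
      rw [mem_inter, mem_N, hCM, mem_insert] at hy
      rcases hy.2 with h | h
      · rw [h] at hy; exact absurd hy.1 (hD.hR z hz)
      · rw [hD.hu z hz y h hy.1]; exact mem_singleton_self _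
  have h2 : ∑ z, (N A z \ CM).card ≤ (n - k) * D := by
    have h : ∀ z, N A z \ CM = (univ \ CM).filter (fun c => z ∈ N (flip A) c) := by
      intro z
      ext c
      simp only [mem_sdiff, mem_filter, mem_N, _root_.flip, mem_univ, true_and]
      tauto
    simp only [h]
    rw [sum_p (univ \ CM) (fun c => N (flip A) c)]
    calc ∑ c ∈ univ \ CM, (N (flip A) c).card ≤ ∑ c ∈ univ \ CM, D := sum_le_sum (fun c _ => hcol c)
      _ = (n - k) * D := by
        rw [sum_const, smul_eq_mul, card_sdiff_of_subset (subset_univ _), card_univ, hY, cC]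
  have h3 : ∀ z, (N A z).card ≤ (N A z \ CM).card + (if z ∈ RM then 1 else D) := by
    intro z
    split_ifs with hz
    · have := h1 z hz
      have := card_inter_add_card_sdiff (N A z) CM
      omega
    · have := hrow z
      omega
  have h4 := sum_le_sum (fun z (_ : z ∈ (univ : Finset X)) => h3 z)
  have h5 : ∑ z : X, (if z ∈ RM then 1 else D) = k + (n - k) * D := by
    rw [sum_ite, sum_const, sum_const, filter_mem_eq_inter, univ_inter, smul_eq_mul, smul_eq_mul,
      mul_one, cR, filter_notMem_eq_sdiff, card_sdiff_of_subset (subset_univ _), card_univ, hX, cR]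
  rw [sum_add_distrib, h5] at h4
  have : T A = ∑ x, (N A x).card := rfl
  rw [this]
  calc _ ≤ _ := h4
    _ ≤ (n - k) * D + (k + (n - k) * D) := by omega
    _ = _ := by ring

lemma lemTriv {n : ℕ} (hX : Fintype.card X = n) (D : ℕ) (hrow : ∀ x, (N A x).card ≤ D) :
    T A ≤ n * D := by
  unfold T
  calc ∑ x, (N A x).card ≤ ∑ x : X, D := sum_le_sum (fun x _ => hrow x)
    _ = n * D := by rw [sum_const, smul_eq_mul, card_univ, hX]

end Pool.Agent.H37.Forcing
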