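import Mathlib
import Pool.Agent.H37.ForcingLemmas

/-!
# The case where the maximum degree is `n - k`
-/

namespace Pool.Agent.H37.Forcing

set_option linter.unusedSectionVars false

open Finset

variable {X Y : Type*} [Fintype X] [Fintype Y] {A : X → Y → Prop} {k : ℕ}

lemma lemC {n : ℕ} (hX : Fintype.card X = n) (hY : Fintype.card Y = n) (hA : Good A k)
    (hk : 4 ≤ k) (r : X) (hr : (N A r).card + k = n) (hpos : 0 < (N A r).card)
    (hrow : ∀ x, (N A x).card ≤ (N A r).card)
    (hcol : ∀ c, (N (flip A) c).card ≤ (N A r).card) :
    T A ≤ k + (N A r).card ^ 2 + 3 * (N A r).card := by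
  classical
  obtain ⟨R, V, m, hR⟩ := exists_row hA r
  set j := (N A r).card with hj
  set p : X → ℕ := fun x => ((N A r).filter (fun c => x ∈ R c)).card with hp
  set Q : X → Finset Y := fun x => (N A r).filter (fun c => ¬ A x c ∧ x ∉ R c) with hQ
  set lam : X → ℕ := fun x => j + 2 - ((N A x).card + p x) with hlam
  by_contra hcon
  push Not at hcon
  have hpr : p r = 0 := hR.p_self
  have hsplit := card_split A r
  -- the three parts of `N r`
  have hpq : ∀ x, (N A x ∩ N A r).card + p x + (Q x).card = j := by
    intro x
    have e1 : (N A x ∩ N A r) = (N A r).filter (fun c => A x c) := by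
      ext c; simp only [mem_inter, mem_filter, mem_N]; tauto
    have e2 : (N A r).filter (fun c => ¬ A x c) =
        (N A r).filter (fun c => x ∈ R c) ∪ Q x := by
      ext c
      simp only [hQ, mem_union, mem_filter, mem_N]
      constructor
      · rintro ⟨h1, h2⟩
        by_cases h3 : x ∈ R c
        · exact Or.inl ⟨h1, h3⟩
        · exact Or.inr ⟨h1, h2, h3⟩
      · rintro (⟨h1, h2⟩ | ⟨h1, h2, h3⟩)
        · exact ⟨h1, (hR.dat c h1).hR x h2⟩
        · exact ⟨h1, h2⟩
    have e3 : Disjoint ((N A r).filter (fun c => x ∈ R c)) (Q x) := by
      rw [disjoint_left]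
      intro c h1 h2
      exact (mem_filter.1 h2).2.2 (mem_filter.1 h1).2
    have e4 := card_filter_add_card_filter_not (s := N A r) (fun c => A x c)
    rw [e2, card_union_of_disjoint e3, ← e1] at e4
    simp only [hp]
    omega
  have hWle : ∀ x, 0 < p x → (N A x \ N A r).card ≤ 2 := by
    intro x hx
    exact hR.card_W_le (s := 1) (by omega) hx
  have hlamle : ∀ x, (N A x).card + p x ≤ j + 2 := by
    intro x
    rcases Nat.eq_zero_or_pos (p x) with h | h
    · rw [h]; have := hrow x; omega
    · have := hWle x h; have := hsplit x; have := hpq x; omega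
  have hlamr : lam r = 2 := by simp only [hlam, hpr]; omega
  have hsum : ∑ x, lam x + 1 ≤ k := by
    have h1 : ∑ x, lam x + ∑ x, ((N A x).card + p x) = n * (j + 2) := by
      rw [← sum_add_distrib]
      have : ∀ x ∈ (univ : Finset X), lam x + ((N A x).card + p x) = j + 2 := fun x _ =>
        Nat.sub_add_cancel (hlamle x)
      rw [sum_congr rfl this, sum_const, card_univ, hX, smul_eq_mul]
    rw [sum_add_distrib] at h1
    have h2 : ∑ x, p x + j = k * j := hR.sum_p
    have h3 : T A = ∑ x, (N A x).card := rfl
    rw [h3] at hcon
    subst hr
    nlinarith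
  -- the element missing from `V c`
  have hu : ∀ c, ∃ u, A r c → (univ \ N A r) \ V c = {u} := by
    intro c
    by_cases hc : A r c
    · have h1 := hR.card_U hc
      have h2 : ((univ \ N A r) \ V c).card = 1 := by omega
      obtain ⟨u, hu⟩ := card_eq_one.1 h2
      exact ⟨u, fun _ => hu⟩
    · exact ⟨c, fun h => absurd h hc⟩
  choose u hu using hu
  have hWsub : ∀ c, A r c → ∀ x ∈ R c, N A x \ N A r ⊆ {m c x, u c} := by
    intro c hc x hx
    have := hR.W_sub hc hx
    rw [hu c hc] at this
    exact this
  obtain ⟨c', hc'⟩ := card_pos.1 hpos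
  rw [mem_N] at hc'
  -- some row is never used
  have hI : ∃ x0, x0 ≠ r ∧ p x0 = 0 := by
    by_contra hI
    push Not at hI
    have h1 : ∀ x, (Q x).card + (if x ∈ (R c').filter (fun x => ¬ A x (u c')) then 1 else 0)
        + (if x = r then 2 else 0) ≤ lam x := by
      intro x
      by_cases hxr : x = r
      · subst hxr
        have h2 : (Q x).card = 0 := by
          have := hpq x
          rw [inter_self] at this
          omega
        have h3 : x ∉ (R c').filter (fun z => ¬ A z (u c')) := by
          intro h
          exact (hR.dat c' hc').hx (mem_filter.1 h).1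
        rw [if_neg h3, if_pos rfl, hlamr, h2]
      · rw [if_neg hxr]
        have hpx := Nat.pos_of_ne_zero (hI x hxr)
        have h2 := hWle x hpx
        have h3 := hsplit x
        have h4 := hpq x
        have h5 : lam x = j + 2 - ((N A x).card + p x) := rfl
        split_ifs with h6
        · have h7 : N A x \ N A r ⊆ {m c' x} := by
            intro y hy
            have h8 := hWsub c' hc' x (mem_filter.1 h6).1 hy
            rw [mem_insert, mem_singleton] at h8
            rcases h8 with h8 | h8
            · rw [h8]; exact mem_singleton_self _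
            · exfalso
              rw [h8, mem_sdiff, mem_N] at hy
              exact (mem_filter.1 h6).2 hy.1
          have h9 := card_le_card h7
          rw [card_singleton] at h9
          omega
        · omega
    have h2 := sum_le_sum (fun x (_ : x ∈ (univ : Finset X)) => h1 x)
    rw [sum_add_distrib, sum_add_distrib, ← sum_filter, ← sum_filter, sum_const, sum_const,
      filter_mem_eq_inter, univ_inter, filter_eq' univ r, if_pos (mem_univ r), card_singleton,
      smul_eq_mul, smul_eq_mul, mul_one, one_mul] at h2
    have h3 : j ≤ ∑ x, (Q x).card := by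
      have e1 : ∀ x, Q x = (N A r).filter (fun c => x ∈ (univ \ N (flip A) c) \ R c) := by
        intro x
        ext c
        simp only [hQ, mem_filter, mem_N, mem_sdiff, mem_univ, true_and, _root_.flip]
      simp only [e1]
      rw [sum_p (N A r) (fun c => (univ \ N (flip A) c) \ R c)]
      calc j = ∑ c ∈ N A r, 1 := by rw [sum_const, smul_eq_mul, mul_one]
        _ ≤ _ := by
          apply sum_le_sum
          intro c hc
          have h5 := le_card_sdiff (R c) (univ \ N (flip A) c)
          have h6 := card_sdiff_add_card_eq_card (subset_univ (N (flip A) c))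
          have h7 := hcol c
          have h8 := (hR.dat c ((mem_N _ _ _).1 hc)).cardR
          rw [card_univ] at h6
          omega
    have h4 : k ≤ ((R c').filter (fun x => ¬ A x (u c'))).card + j + 1 := by
      have h5 := card_filter_add_card_filter_not (s := R c') (fun x => A x (u c'))
      have h6 : ((R c').filter (fun x => A x (u c'))).card ≤ (N (flip A) (u c')).card := by
        apply card_le_card
        intro x hx
        rw [mem_N]
        exact (mem_filter.1 hx).2
      have h7 := hcol (u c')
      have h8 := (hR.dat c' hc').cardR
      omega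
    omega
  obtain ⟨x0, hx0r, hx0⟩ := hI
  set NP : Finset X := univ.filter (fun x => x ≠ r ∧ lam x ≠ 0) with hNP
  have hNPcard : NP.card + 4 ≤ k := by
    have h1 : ∀ x, (if x = r then 2 else 0) + (if x = x0 then 1 else 0)
        + (if x ∈ NP then 1 else 0) ≤ lam x := by
      intro x
      by_cases hxr : x = r
      · have h2 : x ∉ NP := by rw [hNP, mem_filter]; tauto
        rw [if_pos hxr, if_neg h2, if_neg (by rw [hxr]; exact hx0r.symm), hxr, hlamr]
      · rw [if_neg hxr]
        by_cases hx : x = x0
        · have h3 : lam x = j + 2 - ((N A x).card + p x) := rfl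
          have h4 := hrow x
          have h5 : p x = 0 := by rw [hx]; exact hx0
          rw [if_pos hx]
          split_ifs <;> omega
        · rw [if_neg hx]
          split_ifs with h
          · have := (mem_filter.1 h).2.2
            omega
          · omega
    have h2 := sum_le_sum (fun x (_ : x ∈ (univ : Finset X)) => h1 x)
    rw [sum_add_distrib, sum_add_distrib, ← sum_filter, ← sum_filter, ← sum_filter, sum_const,
      sum_const, sum_const,
      filter_mem_eq_inter, univ_inter, filter_eq' univ r, if_pos (mem_univ r), card_singleton,
      filter_eq' univ x0, if_pos (mem_univ x0), card_singleton,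
      smul_eq_mul, smul_eq_mul, smul_eq_mul] at h2
    omega
  -- perfect rows
  have hperf : ∀ x, x ≠ r → x ∉ NP → (N A x \ N A r).card = 2 ∧ ∀ c, A r c → A x c ∨ x ∈ R c := by
    intro x hxr hxN
    have h1 : lam x = 0 := by
      by_contra h
      exact hxN (by rw [hNP, mem_filter]; exact ⟨mem_univ _, hxr, h⟩)
    have h2 : lam x = j + 2 - ((N A x).card + p x) := rfl
    have h3 := hrow x
    have h4 : 0 < p x := by omega
    have h5 := hWle x h4
    have h6 := hsplit x
    have h7 := hpq x
    refine ⟨by omega, fun c hc => ?_⟩
    have h8 : (Q x).card = 0 := by omega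
    rw [card_eq_zero] at h8
    by_contra h9
    push Not at h9
    have : c ∈ Q x := by
      rw [hQ, mem_filter, mem_N]
      exact ⟨hc, h9⟩
    rw [h8] at this
    exact absurd this (notMem_empty _)
  have hWeq : ∀ x, x ≠ r → x ∉ NP → ∀ c, A r c → x ∈ R c → N A x \ N A r = {m c x, u c} := by
    intro x hxr hxN c hc hxc
    apply eq_of_subset_of_card_le (hWsub c hc x hxc)
    rw [(hperf x hxr hxN).1]
    exact card_le_two
  have claim : ∀ x, x ≠ r → x ∉ NP → A x (u c') := by
    intro x hxr hxN
    by_cases hxc : A x c'
    · by_contra hxu
      obtain ⟨R2, V2, m2, D⟩ := (hA x c' hxc).dat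
      have h1 : ∀ z ∈ R2 \ NP, m c' z ∈ N A x \ N A r := by
        intro z hz
        rw [mem_sdiff] at hz
        have hzc : ¬ A z c' := D.hR z hz.1
        have hzr : z ≠ r := by rintro rfl; exact hzc hc'
        have hzx : z ≠ x := by rintro rfl; exact D.hx hz.1
        have hzR : z ∈ R c' := ((hperf z hzr hz.2).2 c' hc').resolve_left hzc
        have hWz := hWeq z hzr hz.2 c' hc' hzR
        -- near
        have hnear : (N A x ∪ N A z).card ≤ j + 2 := by
          have h2 : Disjoint (N A x ∪ N A z) (V2.erase (m2 z)) := by
            rw [disjoint_left]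
            intro y hy hyV
            rw [mem_erase] at hyV
            rcases mem_union.1 hy with h | h
            · exact D.hV y hyV.2 ((mem_N _ _ _).1 h)
            · exact hyV.1 (D.hu z hz.1 y hyV.2 ((mem_N _ _ _).1 h))
          have h3 := card_le_card (subset_univ ((N A x ∪ N A z) ∪ (V2.erase (m2 z))))
          rw [card_union_of_disjoint h2, card_univ, card_erase_of_mem (D.hmV z hz.1)] at h3
          have := D.cardV
          omega
        -- split
        have h3 : ∃ c ∈ N A r, ¬ A x c ∧ ¬ A z c := by
          by_contra hno
          push Not at hno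
          have h4 : N A r ⊆ N A x ∪ N A z := by
            intro c hc
            rw [mem_union, mem_N, mem_N]
            by_cases h : A x c
            · exact Or.inl h
            · exact Or.inr (hno c hc h)
          have h5 : (insert (u c') (N A x \ N A r)) ⊆ (N A x ∪ N A z) \ N A r := by
            intro y hy
            rw [mem_insert] at hy
            rcases hy with rfl | hy
            · have : u c' ∈ N A z \ N A r := by rw [hWz]; simp
              rw [mem_sdiff] at this ⊢
              exact ⟨mem_union_right _ this.1, this.2⟩
            · rw [mem_sdiff] at hy ⊢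
              exact ⟨mem_union_left _ hy.1, hy.2⟩
          have h6 := card_le_card h5
          rw [card_sdiff_of_subset h4, card_insert_of_notMem, (hperf x hxr hxN).1] at h6
          · omega
          · rw [mem_sdiff, mem_N]; tauto
        obtain ⟨c, hc, hxc2, hzc2⟩ := h3
        rw [mem_N] at hc
        have hxR2 := ((hperf x hxr hxN).2 c hc).resolve_left hxc2
        have hzR2 := ((hperf z hzr hz.2).2 c hc).resolve_left hzc2
        have e1 := hWeq x hxr hxN c hc hxR2
        have e2 := hWeq z hzr hz.2 c hc hzR2
        have e3 : u c ∈ N A x \ N A r := by rw [e1]; simp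
        have e4 : u c ∈ N A z \ N A r := by rw [e2]; simp
        rw [hWz, mem_insert, mem_singleton] at e4
        rcases e4 with e4 | e4
        · rw [← e4]; exact e3
        · exfalso
          rw [e4, mem_sdiff, mem_N] at e3
          exact hxu e3.1
      have h2 : (R2 \ NP).card ≤ (N A x \ N A r).card := by
        apply card_le_card_of_injOn (m c') h1
        intro z hz z' hz' h
        have hzz : ∀ z ∈ R2 \ NP, z ∈ R c' := by
          intro z hz
          rw [mem_sdiff] at hz
          have hzc : ¬ A z c' := D.hR z hz.1
          have hzr : z ≠ r := by rintro rfl; exact hzc hc'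
          exact ((hperf z hzr hz.2).2 c' hc').resolve_left hzc
        exact (hR.dat c' hc').inj z (hzz z hz) z' (hzz z' hz') h
      rw [(hperf x hxr hxN).1] at h2
      have h3 := le_card_sdiff NP R2
      have := D.cardR
      omega
    · have h1 := ((hperf x hxr hxN).2 c' hc').resolve_left hxc
      have h2 := hWeq x hxr hxN c' hc' h1
      have h3 : u c' ∈ N A x \ N A r := by rw [h2]; simp
      rw [mem_sdiff, mem_N] at h3
      exact h3.1
  have hfin : (univ \ insert r NP) ⊆ N (flip A) (u c') := by
    intro x hx
    rw [mem_sdiff, mem_insert] at hx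
    rw [mem_N]
    exact claim x (fun h => hx.2 (Or.inl h)) (fun h => hx.2 (Or.inr h))
  have h1 := card_le_card hfin
  have h2 := hcol (u c')
  have h3 := le_card_sdiff (insert r NP) (univ : Finset X)
  have h4 := card_insert_le r NP
  rw [card_univ, hX] at h3
  omega

end Pool.Agent.H37.Forcing
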