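import Mathlib
import Pool.Agent.H37.ForcingLemmas

/-!
# Far pairs of rows
-/

namespace Pool.Agent.H37.Forcing

set_option linter.unusedSectionVars false

open Finset

variable {X Y : Type*} [Fintype X] [Fintype Y] {A : X → Y → Prop} {k : ℕ}

open Classical in
/-- excess of the union of two neighbourhoods over `j + 2` -/
noncomputable def w (A : X → Y → Prop) (j : ℕ) (x y : X) : ℤ :=
  ((N A x ∪ N A y).card : ℤ) - j - 2

/-- defect of a row -/
noncomputable def sd (A : X → Y → Prop) (j : ℕ) (x : X) : ℤ := (j : ℤ) + 1 - (N A x).card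

open Classical in
/-- rows far from `x` -/
noncomputable def Far (A : X → Y → Prop) (j : ℕ) (x : X) : Finset X :=
  univ.filter (fun y => 1 ≤ w A j x y)

/-- total excess over the far rows -/
noncomputable def ph (A : X → Y → Prop) (j : ℕ) (x : X) : ℤ := ∑ y ∈ Far A j x, w A j x y

/-- (target number of edges) minus (number of edges) -/
noncomputable def gap (A : X → Y → Prop) (k j : ℕ) : ℤ :=
  ((k : ℤ) + j ^ 2 + 3 * j) - T A

lemma sum_inter_eq [DecidableEq Y] (r : X) :
    ∑ x, (N A x ∩ N A r).card = ∑ c ∈ N A r, (N (flip A) c).card := by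
  classical
  have h : ∀ x, N A x ∩ N A r = (N A r).filter (fun c => x ∈ N (flip A) c) := by
    intro x
    ext c
    simp only [mem_inter, mem_filter, mem_N, _root_.flip]
    tauto
  simp only [h]
  rw [sum_p (N A r) (fun c => N (flip A) c)]

lemma w_self (j : ℕ) (x : X) : w A j x x = (N A x).card - j - 2 := by
  classical
  unfold w
  rw [union_self]

lemma mem_Far (j : ℕ) (x y : X) : y ∈ Far A j x ↔ 1 ≤ w A j x y := by
  simp [Far]

lemma cast_T : (T A : ℤ) = ∑ x, ((N A x).card : ℤ) := by
  unfold T
  push_cast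
  rfl

lemma one' {j : ℕ} (hX : Fintype.card X = k + j) (x : X) (hdx : (N A x).card ≤ j + 1) :
    ∑ c ∈ N A x, ((j : ℤ) + 1 - (N (flip A) c).card) ≤
      gap A k j + (k - 2) * sd A j x + ph A j x := by
  classical
  have hx : x ∉ Far A j x := by
    rw [mem_Far, w_self]
    push_cast
    have : ((N A x).card : ℤ) ≤ j + 1 := by exact_mod_cast hdx
    linarith
  have h1 : ∀ y : X, ((N A y).card : ℤ) + (N A x).card - j - 2
      - (if y ∈ Far A j x then w A j x y else 0)
      + (if y = x then ((j : ℤ) + 2 - (N A x).card) else 0) ≤ ((N A y ∩ N A x).card : ℤ) := by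
    intro y
    by_cases hyx : y = x
    · subst hyx
      rw [if_neg hx, if_pos rfl, inter_self]
      linarith
    · rw [if_neg hyx]
      have h2 := card_union_add_card_inter (N A x) (N A y)
      rw [inter_comm] at h2
      have h3 : ((N A x ∪ N A y).card : ℤ) + (N A y ∩ N A x).card
          = (N A x).card + (N A y).card := by exact_mod_cast h2
      have h4 : w A j x y = ((N A x ∪ N A y).card : ℤ) - j - 2 := rfl
      split_ifs with hF
      · linarith
      · rw [mem_Far] at hF
        linarith
  have h2 := sum_le_sum (fun y (_ : y ∈ (univ : Finset X)) => h1 y)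
  have h3 : ∑ y, ((N A y ∩ N A x).card : ℤ) = ∑ c ∈ N A x, ((N (flip A) c).card : ℤ) := by
    exact_mod_cast sum_inter_eq (A := A) x
  rw [h3, sum_add_distrib, sum_sub_distrib, sum_sub_distrib, sum_sub_distrib, sum_add_distrib,
    ← sum_filter, filter_mem_eq_inter, univ_inter, ← sum_filter, filter_eq' univ x,
    if_pos (mem_univ x), sum_singleton, sum_const, sum_const, sum_const, card_univ, hX, ← cast_T] at h2
  rw [sum_sub_distrib, sum_const]
  simp only [nsmul_eq_mul] at h2 ⊢
  unfold gap sd
  unfold ph
  push_cast at h2 ⊢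
  nlinarith

lemma two' {j : ℕ} (hX : Fintype.card X = k + j) (hY : Fintype.card Y = k + j) (hA : Good A k)
    (hk : 2 ≤ k) (x : X) (hdx : ∀ y, (N A y).card ≤ j + 1) :
    ∑ y ∈ Far A j x, (1 + sd A j y) ≤ gap A k j + (k - 2) * sd A j x := by
  classical
  obtain ⟨R, V, m, hR⟩ := exists_row hA x
  have hx : x ∉ Far A j x := by
    rw [mem_Far, w_self]
    push_cast
    have : ((N A x).card : ℤ) ≤ j + 1 := by exact_mod_cast hdx x
    linarith
  set p : X → ℕ := fun y => ((N A x).filter (fun c => y ∈ R c)).card with hp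
  have hsp : ∑ y, p y + (N A x).card = k * (N A x).card := hR.sum_p
  have h1 : ∀ y : X, (p y : ℤ) ≤ (1 + sd A j y)
      - (if y ∈ Far A j x then (1 + sd A j y) else 0)
      - (if y = x then (1 + sd A j x) else 0) := by
    intro y
    by_cases hyx : y = x
    · subst hyx
      rw [if_neg hx, if_pos rfl]
      have : p y = 0 := hR.p_self
      rw [this]
      push_cast
      linarith
    rw [if_neg hyx]
    have h2 := card_union_add_card_inter (N A x) (N A y)
    rw [inter_comm] at h2
    have h3 : ((N A x ∪ N A y).card : ℤ) + (N A y ∩ N A x).card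
        = (N A x).card + (N A y).card := by exact_mod_cast h2
    have h4 : w A j x y = ((N A x ∪ N A y).card : ℤ) - j - 2 := rfl
    have h5 : ((N A y ∩ N A x).card : ℤ) + p y ≤ (N A x).card := by exact_mod_cast hR.p_add y
    have h6 : sd A j y = (j : ℤ) + 1 - (N A y).card := rfl
    split_ifs with hF
    · have hp0 : p y = 0 := by
        by_contra hne
        have hpos : 0 < p y := Nat.pos_of_ne_zero hne
        have hdpos : 0 < (N A x).card := by
          have : ((N A x).filter (fun c => y ∈ R c)).card ≤ (N A x).card :=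
            card_le_card (filter_subset _ _)
          simp only [hp] at hpos
          omega
        obtain ⟨c, hc⟩ := card_pos.1 hdpos
        have hd := hdx x
        have := hR.card_W_le (s := j + 1 - (N A x).card) (by omega) (x := y) hpos
        have h7 := card_sdiff_add_card (N A y) (N A x)
        rw [union_comm] at h7
        rw [mem_Far] at hF
        have h8 : ((N A y \ N A x).card : ℤ) + (N A x).card = (N A x ∪ N A y).card := by
          exact_mod_cast h7
        have h9 : ((N A y \ N A x).card : ℤ) + (N A x).card ≤ j + 2 := by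
          have : (N A y \ N A x).card + (N A x).card ≤ j + 2 := by omega
          exact_mod_cast this
        linarith
      rw [hp0]
      push_cast
      linarith
    · rw [mem_Far] at hF
      linarith
  have h2 := sum_le_sum (fun y (_ : y ∈ (univ : Finset X)) => h1 y)
  have h3 : ∑ y : X, (1 + sd A j y) = (k + j) * (j + 2) - T A := by
    unfold sd
    rw [sum_add_distrib, sum_sub_distrib, sum_add_distrib, ← cast_T]
    simp only [sum_const, card_univ, hX, nsmul_eq_mul]
    push_cast
    ring
  rw [sum_sub_distrib, sum_sub_distrib, h3, ← sum_filter, filter_mem_eq_inter, univ_inter,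
    ← sum_filter, filter_eq' univ x, if_pos (mem_univ x), sum_singleton] at h2
  have h4 : (∑ y, (p y : ℤ)) + (N A x).card = k * (N A x).card := by exact_mod_cast hsp
  unfold gap
  have h5 : sd A j x = (j : ℤ) + 1 - (N A x).card := rfl
  have h6 : ((N A x).card : ℤ) = j + 1 - sd A j x := by rw [h5]; ring
  rw [h6] at h4
  push_cast at h2 h4 ⊢
  nlinarith

lemma three' {j : ℕ} (hX : Fintype.card X = k + j) (hY : Fintype.card Y = k + j)
    (s : ℤ) (hcol : ∀ c, ((N (flip A) c).card : ℤ) ≤ j + 1 - s)
    (x y : X) (hdx : (N A x).card ≤ j + 1) (hdy : (N A y).card ≤ j + 1) :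
    w A j x y * (j + 1 - s) + s * (j - sd A j x - sd A j y) - gap A k j ≤
      (k - 2) * (1 + sd A j x + sd A j y) + ph A j x + ph A j y := by
  classical
  have h1 := one' (A := A) hX x hdx
  have h2 := one' (A := A) hX y hdy
  set g : Y → ℤ := fun c => (j : ℤ) + 1 - (N (flip A) c).card with hg
  have h3 : ∑ c ∈ N A x ∪ N A y, g c + ∑ c ∈ N A x ∩ N A y, g c
      = ∑ c ∈ N A x, g c + ∑ c ∈ N A y, g c := sum_union_inter
  have h4 : ∑ c, g c = (k + j) * (j + 1) - T A := by
    simp only [hg]
    rw [sum_sub_distrib, ← T_flip, cast_T]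
    simp only [sum_const, card_univ, hY, nsmul_eq_mul]
    push_cast
    ring
  have h5 : ∑ c ∈ univ \ (N A x ∪ N A y), g c + ∑ c ∈ N A x ∪ N A y, g c = ∑ c, g c :=
    sum_sdiff (subset_univ _)
  have h6 : ∑ c ∈ univ \ (N A x ∪ N A y), g c ≤
      (((k + j : ℕ) : ℤ) - (N A x ∪ N A y).card) * (j + 1) := by
    have h61 : ∑ c ∈ univ \ (N A x ∪ N A y), g c ≤
        ∑ c ∈ univ \ (N A x ∪ N A y), ((j : ℤ) + 1) := by
      apply sum_le_sum
      intro c _
      simp only [hg]
      have : (0 : ℤ) ≤ (N (flip A) c).card := by positivity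
      linarith
    have h62 := card_sdiff_add_card_eq_card (subset_univ (N A x ∪ N A y))
    rw [card_univ, hY] at h62
    have h63 : ((univ \ (N A x ∪ N A y)).card : ℤ) = ((k + j : ℕ) : ℤ) - (N A x ∪ N A y).card := by
      have : ((univ \ (N A x ∪ N A y)).card : ℤ) + (N A x ∪ N A y).card = ((k + j : ℕ) : ℤ) := by
        exact_mod_cast h62
      linarith
    rw [sum_const, nsmul_eq_mul, h63] at h61
    exact h61
  have h7 : s * (N A x ∩ N A y).card ≤ ∑ c ∈ N A x ∩ N A y, g c := by
    have : ∑ c ∈ N A x ∩ N A y, s ≤ ∑ c ∈ N A x ∩ N A y, g c := by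
      apply sum_le_sum
      intro c _
      simp only [hg]
      have := hcol c
      linarith
    rw [sum_const, nsmul_eq_mul] at this
    linarith
  have h8 : ((N A x ∪ N A y).card : ℤ) + (N A x ∩ N A y).card = (N A x).card + (N A y).card := by
    exact_mod_cast card_union_add_card_inter (N A x) (N A y)
  have h9 : ((N A x ∪ N A y).card : ℤ) = w A j x y + j + 2 := by
    unfold w
    ring
  have ex : ((N A x).card : ℤ) = j + 1 - sd A j x := by unfold sd; ring
  have ey : ((N A y).card : ℤ) = j + 1 - sd A j y := by unfold sd; ring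
  have h10 : ((N A x ∩ N A y).card : ℤ) = j - sd A j x - sd A j y - w A j x y := by
    linarith
  rw [h10] at h7
  rw [h9] at h6
  have hgap : gap A k j = ((k : ℤ) + j ^ 2 + 3 * j) - T A := rfl
  push_cast at h6
  nlinarith

lemma w_le {j : ℕ} (hY : Fintype.card Y = k + j) (x y : X) : w A j x y ≤ k - 2 := by
  classical
  unfold w
  have h := card_le_card (subset_univ (N A x ∪ N A y))
  rw [card_univ, hY] at h
  have : ((N A x ∪ N A y).card : ℤ) ≤ k + j := by exact_mod_cast h
  linarith

/-- the system of inequalities obtained from the far rows of a row of maximal degree -/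
lemma lemP {j : ℕ} (hX : Fintype.card X = k + j) (hY : Fintype.card Y = k + j) (hA : Good A k)
    (hk : 2 ≤ k) (r : X) (s : ℤ) (hs0 : 0 ≤ s) (hs : ((N A r).card : ℤ) = j + 1 - s)
    (hrow : ∀ x, ((N A x).card : ℤ) ≤ j + 1 - s)
    (hcol : ∀ c, ((N (flip A) c).card : ℤ) ≤ j + 1 - s) :
    ∃ m P F : ℤ, 0 ≤ m ∧ s * (j + 3 - k - s) - gap A k j ≤ P ∧
      m + F ≤ s * (k - 2) + gap A k j ∧ s * m ≤ F ∧ P ≤ (k - 2) * m ∧
      (1 + s) * (P * (j + 1 - s) + s * (m * (j - s) - F) - m * gap A k j
        - (k - 2) * (m * (1 + s) + F) - m * P) ≤ (k - 2) * ((k - 2) * F + m * gap A k j) := by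
  classical
  have hk' : (0 : ℤ) ≤ (k : ℤ) - 2 := by
    have : (2 : ℤ) ≤ k := by exact_mod_cast hk
    linarith
  have hd : ∀ x, (N A x).card ≤ j + 1 := by
    intro x
    have := hrow x
    have h : ((N A x).card : ℤ) ≤ j + 1 := by linarith
    exact_mod_cast h
  have hsd : ∀ x, s ≤ sd A j x := by
    intro x
    unfold sd
    have := hrow x
    linarith
  have hsr : sd A j r = s := by unfold sd; linarith
  have one := one' (A := A) hX r (hd r)
  have two : ∀ x, ∑ y ∈ Far A j x, (1 + sd A j y) ≤ gap A k j + (k - 2) * sd A j x :=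
    fun x => two' hX hY hA hk x hd
  refine ⟨(Far A j r).card, ph A j r, ∑ y ∈ Far A j r, sd A j y, by positivity, ?_, ?_, ?_, ?_, ?_⟩
  · have h1 : s * (j + 1 - s) ≤ ∑ c ∈ N A r, ((j : ℤ) + 1 - (N (flip A) c).card) := by
      have : ∑ c ∈ N A r, s ≤ ∑ c ∈ N A r, ((j : ℤ) + 1 - (N (flip A) c).card) := by
        apply sum_le_sum
        intro c _
        have := hcol c
        linarith
      rw [sum_const, nsmul_eq_mul, hs] at this
      linarith
    rw [hsr] at one
    linarith
  · have := two r
    rw [sum_add_distrib, sum_const, nsmul_eq_mul, mul_one, hsr] at this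
    linarith
  · have : ∑ y ∈ Far A j r, s ≤ ∑ y ∈ Far A j r, sd A j y := sum_le_sum (fun y _ => hsd y)
    rw [sum_const, nsmul_eq_mul] at this
    linarith
  · have : ph A j r ≤ ∑ y ∈ Far A j r, ((k : ℤ) - 2) := sum_le_sum (fun y _ => w_le hY r y)
    rw [sum_const, nsmul_eq_mul] at this
    linarith
  · -- each far row
    have h4 : ∀ y, (1 + s) * ph A j y ≤ (k - 2) * ((k - 2) * sd A j y + gap A k j) := by
      intro y
      have h41 : ph A j y ≤ (k - 2) * (Far A j y).card := by
        have : ph A j y ≤ ∑ z ∈ Far A j y, ((k : ℤ) - 2) := sum_le_sum (fun z _ => w_le hY y z)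
        rw [sum_const, nsmul_eq_mul] at this
        linarith
      have h42 : (1 + s) * (Far A j y).card ≤ gap A k j + (k - 2) * sd A j y := by
        have : ∑ z ∈ Far A j y, (1 + s) ≤ ∑ z ∈ Far A j y, (1 + sd A j z) :=
          sum_le_sum (fun z _ => by linarith [hsd z])
        rw [sum_const, nsmul_eq_mul] at this
        linarith [two y]
      calc (1 + s) * ph A j y ≤ (1 + s) * ((k - 2) * (Far A j y).card) :=
            mul_le_mul_of_nonneg_left h41 (by linarith)
        _ = (k - 2) * ((1 + s) * (Far A j y).card) := by ring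
        _ ≤ (k - 2) * (gap A k j + (k - 2) * sd A j y) := mul_le_mul_of_nonneg_left h42 hk'
        _ = _ := by ring
    have h5 : ∀ y, (1 + s) * (w A j r y * (j + 1 - s) + s * (j - s - sd A j y) - gap A k j
        - (k - 2) * (1 + s + sd A j y) - ph A j r) ≤ (k - 2) * ((k - 2) * sd A j y + gap A k j) := by
      intro y
      have h3 := three' hX hY s hcol r y (hd r) (hd y)
      rw [hsr] at h3
      have h6 : (1 + s) * (w A j r y * (j + 1 - s) + s * (j - s - sd A j y) - gap A k j
        - (k - 2) * (1 + s + sd A j y) - ph A j r) ≤ (1 + s) * ph A j y :=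
        mul_le_mul_of_nonneg_left (by linarith) (by linarith)
      linarith [h4 y]
    have h6 := sum_le_sum (fun y (_ : y ∈ Far A j r) => h5 y)
    have e1 : ∑ y ∈ Far A j r, (1 + s) * (w A j r y * (j + 1 - s) + s * (j - s - sd A j y)
        - gap A k j - (k - 2) * (1 + s + sd A j y) - ph A j r) =
        (1 + s) * (ph A j r * (j + 1 - s) + s * ((Far A j r).card * (j - s)
          - ∑ y ∈ Far A j r, sd A j y) - (Far A j r).card * gap A k j
        - (k - 2) * ((Far A j r).card * (1 + s) + ∑ y ∈ Far A j r, sd A j y)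
        - (Far A j r).card * ph A j r) := by
      rw [← mul_sum]
      congr 1
      simp only [sum_sub_distrib, sum_add_distrib, ← mul_sum, ← sum_mul, sum_const, nsmul_eq_mul]
      unfold ph
      ring
    have e2 : ∑ y ∈ Far A j r, ((k : ℤ) - 2) * ((k - 2) * sd A j y + gap A k j) =
        (k - 2) * ((k - 2) * ∑ y ∈ Far A j r, sd A j y + (Far A j r).card * gap A k j) := by
      rw [← mul_sum]
      congr 1
      simp only [sum_add_distrib, ← mul_sum, sum_const, nsmul_eq_mul]
    rw [e1, e2] at h6
    exact h6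

end Pool.Agent.H37.Forcing
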