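import Mathlib
import Pool.Agent.H37.ForcingP

/-!
# The case where almost all rows and columns have maximal degree
-/

namespace Pool.Agent.H37.Forcing

set_option linter.unusedSectionVars false

open Finset

variable {X Y : Type*} [Fintype X] [Fintype Y] {A : X → Y → Prop} {k : ℕ}

/-- total excess of the defects over `s` -/
noncomputable def ex (A : X → Y → Prop) (k j : ℕ) (s : ℤ) : ℤ :=
  j * (k - 2 - s) - s * k + gap A k j

lemma sum_sd_sub {j : ℕ} (hX : Fintype.card X = k + j) (s : ℤ) :
    ∑ x : X, (sd A j x - s) = ex A k j s := by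
  unfold sd ex gap
  rw [cast_T]
  simp only [sum_sub_distrib, sum_add_distrib, sum_const, card_univ, hX, nsmul_eq_mul]
  push_cast
  ring

lemma gap_flip (j : ℕ) : gap (flip A) k j = gap A k j := by
  unfold gap
  rw [T_flip]

lemma sum_sd_col {j : ℕ} (hY : Fintype.card Y = k + j) (s : ℤ) :
    ∑ c : Y, (((j : ℤ) + 1 - (N (flip A) c).card) - s) = ex A k j s := by
  have := sum_sd_sub (A := flip A) hY s
  unfold ex at this ⊢
  rw [gap_flip] at this
  exact this

open Classical in
/-- rows whose defect exceeds `s` -/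
noncomputable def Def (A : X → Y → Prop) (j : ℕ) (s : ℤ) : Finset X :=
  univ.filter (fun x => s + 1 ≤ sd A j x)

lemma card_Def_le {j : ℕ} (hX : Fintype.card X = k + j) (s : ℤ) (hs : ∀ x, s ≤ sd A j x) :
    ((Def A j s).card : ℤ) ≤ ex A k j s := by
  classical
  rw [← sum_sd_sub (A := A) hX s]
  have h1 : ((Def A j s).card : ℤ) = ∑ x ∈ Def A j s, 1 := by simp
  rw [h1]
  calc ∑ x ∈ Def A j s, (1 : ℤ) ≤ ∑ x ∈ Def A j s, (sd A j x - s) := by
        apply sum_le_sum
        intro x hx
        have := (mem_filter.1 hx).2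
        linarith
    _ ≤ ∑ x, (sd A j x - s) := by
        apply sum_le_sum_of_subset_of_nonneg (subset_univ _)
        intro x _ _
        linarith [hs x]

lemma Dat.union_le [DecidableEq Y] {x : X} {c : Y} {R : Finset X} {V : Finset Y} {m : X → Y}
    (hD : Dat A k x c R V m) {z : X} (hz : z ∈ R) :
    (N A x ∪ N A z).card + k ≤ Fintype.card Y + 2 := by
  have h1 : Disjoint (N A x ∪ N A z) (V.erase (m z)) := by
    rw [disjoint_left]
    intro y hy hyV
    rw [mem_erase] at hyV
    rw [mem_union, mem_N, mem_N] at hy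
    rcases hy with h | h
    · exact hD.hV y hyV.2 h
    · exact hyV.1 (hD.hu z hz y hyV.2 h)
  have h2 := card_le_card (subset_univ ((N A x ∪ N A z) ∪ V.erase (m z)))
  rw [card_union_of_disjoint h1, card_univ, card_erase_of_mem (hD.hmV z hz)] at h2
  have h3 := hD.cardV
  have h4 : 0 < V.card := card_pos.2 ⟨_, hD.hmV z hz⟩
  omega

lemma lemE1 {j : ℕ} (hX : Fintype.card X = k + j) (hY : Fintype.card Y = k + j) (hA : Good A k)
    (s : ℤ) (hs0 : 0 ≤ s)
    (hrow : ∀ x, ((N A x).card : ℤ) ≤ j + 1 - s)
    (hcol : ∀ c, ((N (flip A) c).card : ℤ) ≤ j + 1 - s)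
    (hgap : gap A k j ≤ -1) (hE : ex A k j s ≤ s + 2)
    {x₀ : X} {c₀ : Y} {R : Finset X} {V : Finset Y} {m : X → Y} (hD : Dat A k x₀ c₀ R V m)
    [DecidableEq X] :
    (k : ℤ) - 1 - s ≤ ((insert x₀ R ∩ Def A j s).card : ℤ) := by
  classical
  set RM := insert x₀ R with hRM
  set CM := insert c₀ V with hCM
  have cR : RM.card = k := by rw [hRM, card_insert_of_notMem hD.hx, hD.cardR]
  have cC : CM.card = k := by rw [hCM, card_insert_of_notMem hD.hc, hD.cardV]
  have h1 : ∀ z ∈ RM, (N A z ∩ CM).card ≤ 1 := by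
    intro z hz
    rw [hRM, mem_insert] at hz
    rcases hz with rfl | hz
    · rw [← card_singleton c₀]
      apply card_le_card
      intro y hy
      rw [mem_inter, mem_N, hCM, mem_insert] at hy
      rcases hy.2 with h | h
      · rw [h]; exact mem_singleton_self _
      · exact absurd hy.1 (hD.hV y h)
    · rw [← card_singleton (m z)]
      apply card_le_card
      intro y hy
      rw [mem_inter, mem_N, hCM, mem_insert] at hy
      rcases hy.2 with h | h
      · rw [h] at hy; exact absurd hy.1 (hD.hR z hz)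
      · rw [hD.hu z hz y h hy.1]; exact mem_singleton_self _
  have h1' : ∀ c ∈ CM, (RM.filter (fun z => A z c)).card ≤ 1 := by
    intro c hc
    rw [card_le_one]
    intro z hz z' hz'
    rw [mem_filter, hRM, mem_insert] at hz hz'
    rw [hCM, mem_insert] at hc
    rcases hc with rfl | hc
    · rcases hz.1 with h | h
      · rcases hz'.1 with h' | h'
        · rw [h, h']
        · exact absurd hz'.2 (hD.hR z' h')
      · exact absurd hz.2 (hD.hR z h)
    · rcases hz.1 with h | h
      · rw [h] at hz; exact absurd hz.2 (hD.hV c hc)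
      · rcases hz'.1 with h' | h'
        · rw [h'] at hz'; exact absurd hz'.2 (hD.hV c hc)
        · exact hD.inj z h z' h' ((hD.hu z h c hc hz.2).symm.trans (hD.hu z' h' c hc hz'.2))
  -- a row outside with many neighbours in `CM`
  have hsum : ∑ z, (N A z ∩ CM).card = ∑ c ∈ CM, (N (flip A) c).card := by
    have h : ∀ z, N A z ∩ CM = CM.filter (fun c => z ∈ N (flip A) c) := by
      intro z
      ext c
      simp only [mem_inter, mem_filter, mem_N, _root_.flip]
      tauto
    simp only [h]
    rw [sum_p CM (fun c => N (flip A) c)]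
  have hcolsum : (k : ℤ) * (j + 1 - s) - ex A k j s ≤ ∑ c ∈ CM, ((N (flip A) c).card : ℤ) := by
    have h2 : ∑ c ∈ CM, (((j : ℤ) + 1 - (N (flip A) c).card) - s) ≤ ex A k j s := by
      rw [← sum_sd_col (A := A) hY s]
      apply sum_le_sum_of_subset_of_nonneg (subset_univ _)
      intro c _ _
      linarith [hcol c]
    rw [sum_sub_distrib, sum_sub_distrib, sum_const, sum_const, cC] at h2
    simp only [nsmul_eq_mul] at h2
    linarith
  obtain ⟨x, hxR, hax⟩ : ∃ x, x ∉ RM ∧ s + 3 ≤ ((N A x ∩ CM).card : ℤ) := by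
    by_contra hcon
    push Not at hcon
    have h2 : ∀ z, ((N A z ∩ CM).card : ℤ) ≤ if z ∈ RM then 1 else s + 2 := by
      intro z
      split_ifs with hz
      · exact_mod_cast h1 z hz
      · have := hcon z hz
        linarith
    have h3 := sum_le_sum (fun z (_ : z ∈ (univ : Finset X)) => h2 z)
    have h4 : ∑ z : X, (if z ∈ RM then (1 : ℤ) else s + 2) = k + j * (s + 2) := by
      rw [sum_ite, sum_const, sum_const, filter_mem_eq_inter, univ_inter, cR,
        filter_notMem_eq_sdiff, card_sdiff_of_subset (subset_univ _), card_univ, hX, cR,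
        Nat.add_sub_cancel_left]
      simp
    have h5 : ∑ z : X, ((N A z ∩ CM).card : ℤ) = ∑ c ∈ CM, ((N (flip A) c).card : ℤ) := by
      exact_mod_cast hsum
    rw [h4, h5] at h3
    unfold ex at hcolsum
    nlinarith
  -- a column of maximal degree there
  obtain ⟨c, hc, hdc⟩ : ∃ c ∈ N A x ∩ CM, ((N (flip A) c).card : ℤ) = j + 1 - s := by
    by_contra hcon
    push Not at hcon
    have h2 : ∑ c ∈ N A x ∩ CM, (1 : ℤ) ≤ ex A k j s := by
      rw [← sum_sd_col (A := A) hY s]
      calc ∑ c ∈ N A x ∩ CM, (1 : ℤ)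
          ≤ ∑ c ∈ N A x ∩ CM, (((j : ℤ) + 1 - (N (flip A) c).card) - s) := by
            apply sum_le_sum
            intro c hc
            have h3 := hcon c hc
            have h4 := hcol c
            have : ((N (flip A) c).card : ℤ) < j + 1 - s := lt_of_le_of_ne h4 h3
            linarith
        _ ≤ _ := by
            apply sum_le_sum_of_subset_of_nonneg (subset_univ _)
            intro c _ _
            linarith [hcol c]
    rw [sum_const, nsmul_eq_mul, mul_one] at h2
    linarith
  rw [mem_inter, mem_N] at hc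
  obtain ⟨R', V', m', hD'⟩ := (hA x c hc.1).dat
  -- compare the two copies inside the complement of `N c`
  set S1 := RM.filter (fun z => ¬ A z c) with hS1
  have cS1 : k ≤ S1.card + 1 := by
    have h2 : (RM.filter (fun z => A z c)).card + S1.card = RM.card := by
      rw [hS1]
      convert card_filter_add_card_filter_not (s := RM) (fun z => A z c)
    have h3 := h1' c hc.2
    rw [cR] at h2
    omega
  have hZ : ((univ \ N (flip A) c).card : ℤ) = k - 1 + s := by
    have h2 := card_sdiff_add_card_eq_card (subset_univ (N (flip A) c))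
    rw [card_univ, hX] at h2
    have h3 : ((univ \ N (flip A) c).card : ℤ) + (N (flip A) c).card = k + j := by
      exact_mod_cast h2
    linarith
  have hS1Z : S1 ⊆ univ \ N (flip A) c := by
    intro z hz
    rw [mem_sdiff, mem_N]
    exact ⟨mem_univ _, (mem_filter.1 hz).2⟩
  have hR'Z : R' ⊆ univ \ N (flip A) c := by
    intro z hz
    rw [mem_sdiff, mem_N]
    exact ⟨mem_univ _, hD'.hR z hz⟩
  have hinter : (k : ℤ) - 1 - s ≤ ((S1 ∩ R').card : ℤ) := by
    have h2 := card_union_add_card_inter S1 R'
    have h3 := card_le_card (union_subset hS1Z hR'Z)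
    have h4 := hD'.cardR
    have h2' : ((S1 ∪ R').card : ℤ) + (S1 ∩ R').card = S1.card + R'.card := by exact_mod_cast h2
    have h3' : ((S1 ∪ R').card : ℤ) ≤ (univ \ N (flip A) c).card := by exact_mod_cast h3
    have h4' : ((R').card : ℤ) + 1 = k := by exact_mod_cast h4
    have h5' : (k : ℤ) ≤ S1.card + 1 := by exact_mod_cast cS1
    linarith
  refine hinter.trans ?_
  have hsub : S1 ∩ R' ⊆ RM ∩ Def A j s := by
    intro z hz
    rw [mem_inter] at hz
    have hzR : z ∈ RM := (mem_filter.1 hz.1).1
    rw [mem_inter]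
    refine ⟨hzR, ?_⟩
    unfold Def
    rw [mem_filter]
    refine ⟨mem_univ _, ?_⟩
    have h2 := hD'.union_le hz.2
    rw [hY] at h2
    have h3 : (N A x ∩ CM).card ≤ (N A x \ N A z).card + (N A z ∩ CM).card := by
      rw [← card_union_of_disjoint]
      · apply card_le_card
        intro y hy
        rw [mem_inter] at hy
        by_cases hzy : y ∈ N A z
        · exact mem_union_right _ (mem_inter.2 ⟨hzy, hy.2⟩)
        · exact mem_union_left _ (mem_sdiff.2 ⟨hy.1, hzy⟩)
      · rw [disjoint_left]
        intro y hy hy'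
        exact (mem_sdiff.1 hy).2 (mem_inter.1 hy').1
    have h4 := h1 z hzR
    have h5 := card_sdiff_add_card (N A x) (N A z)
    have h6 : s + 2 + (N A z).card ≤ (N A x ∪ N A z).card := by
      have : ((N A x ∩ CM).card : ℤ) ≤ (N A x \ N A z).card + (N A z ∩ CM).card := by
        exact_mod_cast h3
      have h4' : ((N A z ∩ CM).card : ℤ) ≤ 1 := by exact_mod_cast h4
      have h5' : ((N A x \ N A z).card : ℤ) + (N A z).card = (N A x ∪ N A z).card := by
        exact_mod_cast h5
      linarith
    have h7 : ((N A x ∪ N A z).card : ℤ) ≤ j + 2 := by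
      have : (N A x ∪ N A z).card ≤ j + 2 := by omega
      exact_mod_cast this
    unfold sd
    linarith
  exact_mod_cast card_le_card hsub

lemma lemE {j : ℕ} (hX : Fintype.card X = k + j) (hY : Fintype.card Y = k + j) (hA : Good A k)
    (s : ℤ) (hs0 : 0 ≤ s) (r : X) (hr : 0 < (N A r).card)
    (hrow : ∀ x, ((N A x).card : ℤ) ≤ j + 1 - s)
    (hcol : ∀ c, ((N (flip A) c).card : ℤ) ≤ j + 1 - s)
    (hgap : gap A k j ≤ -1) (hE : ex A k j s ≤ s + 2) (hk : s + 3 ≤ k) :
    (k : ℤ) - 1 - s ≤ ex A k j s ∧ (ex A k j s = k - 1 - s → (j : ℤ) ≤ 2 * s + 2) := by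
  classical
  have hsd : ∀ x, s ≤ sd A j x := by
    intro x
    unfold sd
    linarith [hrow x]
  have hDef := card_Def_le (A := A) hX s hsd
  have key : ∀ x c, A x c → ∀ R V m, Dat A k x c R V m →
      (k : ℤ) - 1 - s ≤ ((insert x R ∩ Def A j s).card : ℤ) := fun x c _ R V m hD =>
    lemE1 hX hY hA s hs0 hrow hcol hgap hE hD
  obtain ⟨c, hc⟩ := card_pos.1 hr
  rw [mem_N] at hc
  obtain ⟨R, V, m, hD⟩ := (hA r c hc).dat
  have h1 := key r c hc R V m hD
  have h2 : ((insert r R ∩ Def A j s).card : ℤ) ≤ (Def A j s).card := by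
    exact_mod_cast card_le_card inter_subset_right
  refine ⟨by linarith, ?_⟩
  intro hex
  -- every copy contains all the deficient rows
  have hall : ∀ x c, A x c → ∀ R V m, Dat A k x c R V m → Def A j s ⊆ insert x R := by
    intro x c hxc R V m hD
    have h3 := key x c hxc R V m hD
    have h4 : insert x R ∩ Def A j s = Def A j s := by
      apply eq_of_subset_of_card_le inter_subset_right
      have : ((Def A j s).card : ℤ) ≤ (insert x R ∩ Def A j s).card := by linarith
      exact_mod_cast this
    rw [← h4]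
    exact inter_subset_left
  have hcard : ((Def A j s).card : ℤ) = k - 1 - s := by linarith
  have h2c : 1 < (Def A j s).card := by
    have : (1 : ℤ) < (Def A j s).card := by linarith
    exact_mod_cast this
  obtain ⟨y1, hy1, y2, hy2, hne⟩ := one_lt_card.1 h2c
  -- the deficient rows have defect exactly `s + 1`
  have hdeg : ∀ y ∈ Def A j s, sd A j y = s + 1 := by
    intro y hy
    apply le_antisymm _ (mem_filter.1 hy).2
    by_contra hcon
    push Not at hcon
    have h5 : ∑ x ∈ Def A j s, (sd A j x - s) ≤ ex A k j s := by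
      rw [← sum_sd_sub (A := A) hX s]
      apply sum_le_sum_of_subset_of_nonneg (subset_univ _)
      intro x _ _
      linarith [hsd x]
    have h6 : ∑ x ∈ Def A j s, (1 : ℤ) < ∑ x ∈ Def A j s, (sd A j x - s) := by
      apply sum_lt_sum
      · intro x hx
        have := (mem_filter.1 hx).2
        linarith
      · exact ⟨y, hy, by linarith⟩
    rw [sum_const, nsmul_eq_mul, mul_one] at h6
    linarith
  have hdeg' : ∀ y ∈ Def A j s, ((N A y).card : ℤ) = j - s := by
    intro y hy
    have := hdeg y hy
    unfold sd at this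
    linarith
  by_contra hj
  push Not at hj
  have hpos : 0 < (N A y1).card := by
    have : (0 : ℤ) < (N A y1).card := by rw [hdeg' y1 hy1]; linarith
    exact_mod_cast this
  have hin : ∀ c, A y1 c → ∃ R V m, Dat A k y1 c R V m ∧ y2 ∈ R := by
    intro c hc
    obtain ⟨R, V, m, hD⟩ := (hA y1 c hc).dat
    refine ⟨R, V, m, hD, ?_⟩
    have := hall y1 c hc R V m hD hy2
    rw [mem_insert] at this
    rcases this with h | h
    · exact absurd h.symm hne
    · exact h
  have hdisj : Disjoint (N A y1) (N A y2) := by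
    rw [disjoint_left]
    intro c h1 h2
    rw [mem_N] at h1 h2
    obtain ⟨R, V, m, hD, hR⟩ := hin c h1
    exact hD.hR y2 hR h2
  obtain ⟨c', hc'⟩ := card_pos.1 hpos
  rw [mem_N] at hc'
  obtain ⟨R', V', m', hD', hR'⟩ := hin c' hc'
  have h7 := hD'.union_le hR'
  rw [card_union_of_disjoint hdisj, hY] at h7
  have h8 : ((N A y1).card : ℤ) + (N A y2).card ≤ j + 2 := by
    have : (N A y1).card + (N A y2).card ≤ j + 2 := by omega
    exact_mod_cast this
  rw [hdeg' y1 hy1, hdeg' y2 hy2] at h8
  linarith

end Pool.Agent.H37.Forcing
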