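import Mathlib
import Pool.Agent.H37.ForcingC
import Pool.Agent.H37.ForcingE

/-!
# The upper bound
-/

namespace Pool.Agent.H37.Forcing

set_option linter.unusedSectionVars false

open Finset

variable {X Y : Type*} [Fintype X] [Fintype Y] {A : X → Y → Prop} {k : ℕ}

/-- elimination in the system of `lemP` -/
lemma P1 {K j s g m P F : ℤ} (hs : 0 ≤ s) (hK : 0 ≤ K) (hg : g ≤ -1) (hj : K ≤ j + 1 - s)
    (a : s * (j + 1 - K - s) - g ≤ P) (b : m + F ≤ s * K + g) (c : s * m ≤ F)
    (d : P ≤ K * m)
    (e : (1 + s) * (P * (j + 1 - s) + s * (m * (j - s) - F) - m * g - K * (m * (1 + s) + F)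
      - m * P) ≤ K * (K * F + m * g)) :
    (s * (j + 1 - K - s) - g) * ((1 + s) * (j + 1 - s) + K - g) ≤
      (s * K + g) * ((1 + s) * (s + K) + K ^ 2) := by
  have hmK : m ≤ K := by
    by_contra h
    push Not at h
    nlinarith
  have h1 : 0 ≤ (1 + s) * ((P - (s * (j + 1 - K - s) - g)) * (j + 1 - s - m)) :=
    mul_nonneg (by linarith) (mul_nonneg (by linarith) (by linarith))
  have h2 : 0 ≤ (s * K + g - m - F) * ((1 + s) * (s + K) + K ^ 2) :=
    mul_nonneg (by linarith) (by positivity)
  have h3 : 0 ≤ (K * m - (s * (j + 1 - K - s) - g)) * (K - g) :=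
    mul_nonneg (by linarith) (by linarith)
  nlinarith [h1, h2, h3, e]

/-- Lemma A suffices when `(k + 1) ^ 2 ≤ 3 n` -/
lemma arithA {k j s D t : ℤ} (hs2 : 2 ≤ s) (hsk : s + 3 ≤ k)
    (hD : D = j + 1 - s)
    (hA : (k - 1 + s) * t ≤ (k - 2) * D * (j + 1)
      + (s + 1) * (D ^ 2 + (k - 1 + s) * (k + j - 1)))
    (h : (k + 1) ^ 2 ≤ 3 * (k + j)) :
    t ≤ k + j ^ 2 + 3 * j := by
  subst hD
  have h2 : 0 ≤ (s - 2) * (k ^ 2 - 4 * k + 1 - 3 * s) := by
    apply mul_nonneg (by linarith)
    nlinarith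
  have h3 : (k - 1 + s) ^ 2 ≤ (k + j) * (s + 1) := by nlinarith
  have h4 : (k - 1 + s) * t ≤ (k - 1 + s) * (k + j ^ 2 + 3 * j) := by
    have h5 : 0 ≤ s * ((k + j) * (s + 1) - (k - 1 + s) ^ 2) :=
      mul_nonneg (by linarith) (by linarith)
    nlinarith
  exact le_of_mul_le_mul_left h4 (by linarith)

/-- hypothesis of the finite check -/
def chkH (k n s : ℕ) : Prop :=
  6 ≤ k ∧ k ^ 3 < n ^ 2 ∧ 3 * n < (k + 1) ^ 2 ∧ 2 ≤ s ∧ s + 3 ≤ k ∧ s * n < (k - 2) * (n - k)

instance (k n s : ℕ) : Decidable (chkH k n s) := by unfold chkH; infer_instance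

/-- conclusion of the finite check -/
def chkC (k n s : ℕ) : Prop :=
  2 * k + s ≤ n + 2 ∧ k ≤ n ∧
    ((k - 2) * ((s * (k - 2) - 1) / (1 + s)) < s * (n + 3 - 2 * k - s) + 1 ∨
      (s * (k - 2) - 1) * ((1 + s) * (s + (k - 2)) + (k - 2) ^ 2) <
        (s * (n + 3 - 2 * k - s) + 1) * ((1 + s) * (n + 1 - k - s) + (k - 2) + 1))

instance (k n s : ℕ) : Decidable (chkC k n s) := by unfold chkC; infer_instance

/-- finite check -/
lemma check : ∀ k < 14, ∀ n < 66, ∀ s < 11, chkH k n s → chkC k n s := by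
  decide +kernel

/-- the polynomial inequality for `14 ≤ k` -/
lemma polyK {K v a : ℤ} (hK : 12 ≤ K) (ha3 : 3 ≤ a) (haK : a ≤ K)
    (h : (K + 2) ^ 3 < (v + K) ^ 2) (hv0 : 0 ≤ v) :
    K * (a * (K + a - 1) + K ^ 2) ≤ (v - K - a) * (a * (v - a) + K) := by
  have hv : 3 * K + 5 ≤ v := by
    by_contra hcon
    push Not at hcon
    have h1 : (v + K) ^ 2 ≤ (4 * K + 4) ^ 2 := by
      apply pow_le_pow_left₀ (by linarith)
      linarith
    nlinarith [mul_nonneg (by linarith : (0:ℤ) ≤ K - 12) (sq_nonneg K)]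
  have hQ : 0 ≤ (v - a) ^ 2 + 3 * a + 9 - 6 * v - K * v - K ^ 2 := by
    have h1 : 0 ≤ (K - a) * (2 * v - a - K - 3) := mul_nonneg (by linarith) (by linarith)
    have h2 : 0 ≤ (v - (3 * K + 5)) * (v - (3 * K + 5)) := mul_self_nonneg _
    nlinarith [mul_nonneg (by linarith : (0:ℤ) ≤ v - (3 * K + 5)) (by linarith : (0:ℤ) ≤ K)]
  have hH : 0 ≤ 3 * (v - 3) ^ 2 - 2 * K * v - 4 * K ^ 2 - K ^ 3 := by
    have h1 : 0 ≤ (v - (3 * K + 5)) * (v - (3 * K + 5)) := mul_self_nonneg _
    nlinarith [mul_nonneg (by linarith : (0:ℤ) ≤ v - (3 * K + 5)) (by linarith : (0:ℤ) ≤ K)]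
  have h1 : 0 ≤ (a - 3) * ((v - a) ^ 2 + 3 * a + 9 - 6 * v - K * v - K ^ 2) :=
    mul_nonneg (by linarith) hQ
  nlinarith [h1, hH]

lemma upper_row {n : ℕ} (hX : Fintype.card X = n) (hY : Fintype.card Y = n) (hA : Good A k)
    (hk : 2 ≤ k) (hkn : k ≤ n) (r : X)
    (hrow : ∀ x, (N A x).card ≤ (N A r).card)
    (hcol : ∀ c, (N (flip A) c).card ≤ (N A r).card)
    (h : k ^ 3 < n ^ 2 ∨ n ≤ k + 5 ∨ (n - k) * (k - 4) ≤ 2 * k + 4) :
    T A ≤ k + (n - k) ^ 2 + 3 * (n - k) := by
  classical
  have hT := lemTriv hX _ hrow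
  rcases Nat.eq_zero_or_pos (N A r).card with h0 | hpos
  · rw [h0] at hT
    omega
  obtain ⟨c, hc⟩ := card_pos.1 hpos
  have hdeg := deg_le hA r c ((mem_N _ _ _).1 hc)
  rw [hY] at hdeg
  obtain ⟨s, hs⟩ : ∃ s, (N A r).card + s + k = n + 1 :=
    ⟨n + 1 - k - (N A r).card, by omega⟩
  have hlA := lemA hX hY hA r s hs hk hrow hcol
  have hlB := lemB hX hY hA _ hrow hcol
  obtain ⟨j, rfl⟩ : ∃ j, n = k + j := ⟨n - k, by omega⟩
  rw [Nat.add_sub_cancel_left] at hlB ⊢
  rw [Nat.add_sub_cancel_left] at h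
  rcases Nat.lt_or_ge s 2 with hs2 | hs2
  · interval_cases s
    · have hD : (N A r).card = j + 1 := by omega
      rw [hD] at hlA
      push_cast at hlA
      have hk' : (2 : ℤ) ≤ k := by exact_mod_cast hk
      have h4 : (k - 1 : ℤ) * T A ≤ (k - 1) * (k + j ^ 2 + 3 * j) := by
        nlinarith
      have h5 := le_of_mul_le_mul_left h4 (by linarith)
      exact_mod_cast h5
    · have hD : (N A r).card = j := by omega
      by_cases hk4 : 4 ≤ k
      · have := lemC hX hY hA hk4 r (by omega) hpos hrow hcol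
        rw [hD] at this
        exact this
      · rw [hD] at hT
        have : k ≤ 3 := by omega
        nlinarith
  -- the case `2 ≤ s`
  by_contra hcon
  push Not at hcon
  have hdr : ((N A r).card : ℤ) = j + 1 - s := by
    have : ((N A r).card : ℤ) + s + k = k + j + 1 := by exact_mod_cast hs
    linarith
  have hgap : gap A k j ≤ -1 := by
    unfold gap
    have : (k : ℤ) + j ^ 2 + 3 * j < T A := by exact_mod_cast hcon
    linarith
  have hTg : (T A : ℤ) = k + j ^ 2 + 3 * j - gap A k j := by unfold gap; ring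
  have hrow' : ∀ x, ((N A x).card : ℤ) ≤ j + 1 - s := by
    intro x
    rw [← hdr]
    exact_mod_cast hrow x
  have hcol' : ∀ c, ((N (flip A) c).card : ℤ) ≤ j + 1 - s := by
    intro c
    rw [← hdr]
    exact_mod_cast hcol c
  have hs2' : (2 : ℤ) ≤ s := by exact_mod_cast hs2
  have hk' : (2 : ℤ) ≤ k := by exact_mod_cast hk
  have hj' : (0 : ℤ) ≤ j := by positivity
  have hT' : (T A : ℤ) ≤ (k + j) * (j + 1 - s) := by
    rw [← hdr]
    exact_mod_cast hT
  have hB' : (T A : ℤ) ≤ k + 2 * j * (j + 1 - s) := by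
    rw [← hdr]
    exact_mod_cast hlB
  have c2 : (s : ℤ) * (k + j) < (k - 2) * j := by nlinarith
  have c1 : (s : ℤ) + 3 ≤ k := by
    by_contra hcc
    push Not at hcc
    have : (k : ℤ) - 2 ≤ s := by linarith
    nlinarith
  have c1n : s + 3 ≤ k := by exact_mod_cast c1
  have c3 : (2 : ℤ) * s + 2 ≤ j := by
    by_contra hcc
    push Not at hcc
    have : (j : ℤ) ≤ 2 * s + 1 := by linarith
    nlinarith
  have c4 : ¬ ((k : ℤ) + 1) ^ 2 ≤ 3 * (k + j) := by
    intro hcc
    have := arithA (k := k) (j := j) (s := s) (D := (N A r).card) (t := T A) hs2' c1 hdr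
      (by
        have e1 : ((k + j : ℕ) : ℤ) - k + 1 = j + 1 := by push_cast; ring
        have e2 : ((k + j : ℕ) : ℤ) - 1 = k + j - 1 := by push_cast; ring
        push_cast at hlA ⊢
        have e3 : (k : ℤ) + j - k + 1 = j + 1 := by ring
        rw [e3] at hlA
        exact hlA) hcc
    linarith
  rcases h with h | h | h
  · -- `k ^ 3 < n ^ 2`
    obtain ⟨m, P, F, hm, a, b, c', d, e⟩ := lemP hX hY hA hk r (s : ℤ) (by linarith) hdr hrow' hcol'
    have a' : (s : ℤ) * (j + 1 - (k - 2) - s) - gap A k j ≤ P := by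
      have : (s : ℤ) * (j + 1 - (k - 2) - s) = s * (j + 3 - k - s) := by ring
      rw [this]
      exact a
    have hn : (k : ℤ) ^ 3 < (k + j) ^ 2 := by exact_mod_cast h
    by_cases hk14 : k < 14
    · have hk6 : 6 ≤ k := by
        by_contra hcc
        have hk5 : k = 5 := by omega
        subst hk5
        have : j ≤ 6 := by
          push_cast at c4
          omega
        interval_cases j <;> omega
      have h3n : 3 * (k + j) < (k + 1) ^ 2 := by
        push Not at c4
        exact_mod_cast c4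
      have hn66 : k + j < 66 := by
        have : (k + 1) ^ 2 ≤ 14 ^ 2 := Nat.pow_le_pow_left (by omega) 2
        omega
      have hc2n : s * (k + j) < (k - 2) * (k + j - k) := by
        rw [Nat.add_sub_cancel_left]
        zify [hk]
        exact c2
      obtain ⟨q1, -, q2⟩ := check k hk14 (k + j) hn66 s (by omega)
        ⟨hk6, h, h3n, hs2, c1n, hc2n⟩
      have q1' : (2 : ℤ) * k + s ≤ k + j + 2 := by exact_mod_cast q1
      have q3 : 1 ≤ s * (k - 2) := Nat.mul_pos (by omega) (by omega)
      rcases q2 with q2 | q2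
      · set q := (s * (k - 2) - 1) / (1 + s) with hq
        have h5 : s * (k - 2) - 1 < (1 + s) * (q + 1) := by
          rw [hq]
          exact Nat.lt_mul_div_succ _ (by omega)
        have h5' : (s : ℤ) * (k - 2) - 1 < (1 + s) * (q + 1) := by
          zify [q3, hk] at h5
          exact h5
        have hmq : m ≤ q := by
          by_contra hcc
          push Not at hcc
          have : (q : ℤ) + 1 ≤ m := hcc
          have h6 : (1 + (s : ℤ)) * (q + 1) ≤ (1 + s) * m :=
            mul_le_mul_of_nonneg_left this (by linarith)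
          nlinarith
        have h7 : ((k : ℤ) - 2) * q < s * (j + 1 - (k - 2) - s) + 1 := by
          have e1 : k + j + 3 - 2 * k - s = j + 3 - k - s := by omega
          rw [e1] at q2
          have e2 : s ≤ j + 3 - k := by omega
          have e3 : k ≤ j + 3 := by omega
          zify [hk, e2, e3] at q2
          have e4 : (s : ℤ) * (j + 1 - (k - 2) - s) = s * (j + 3 - k - s) := by ring
          rw [e4]
          exact q2
        have h8 : ((k : ℤ) - 2) * m ≤ (k - 2) * q := mul_le_mul_of_nonneg_left hmq (by linarith)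
        linarith
      · have hP := P1 (K := (k : ℤ) - 2) (j := j) (s := s) (g := gap A k j) (by linarith)
          (by linarith) hgap (by linarith) a' b c' d e
        have h7 : ((s : ℤ) * (k - 2) - 1) * ((1 + s) * (s + (k - 2)) + (k - 2) ^ 2) <
            (s * (j + 1 - (k - 2) - s) + 1) * ((1 + s) * (j + 1 - s) + (k - 2) + 1) := by
          have e1 : k + j + 3 - 2 * k - s = j + 3 - k - s := by omega
          have e5 : k + j + 1 - k - s = j + 1 - s := by omega
          rw [e1, e5] at q2
          have e2 : s ≤ j + 3 - k := by omega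
          have e3 : k ≤ j + 3 := by omega
          have e6 : s ≤ j + 1 := by omega
          zify [hk, e2, e3, e6, q3] at q2
          have e4 : (s : ℤ) * (j + 1 - (k - 2) - s) = s * (j + 3 - k - s) := by ring
          rw [e4]
          exact q2
        have hC : (0 : ℤ) ≤ (1 + s) * (s + (k - 2)) + (k - 2) ^ 2 := by
          have : (0 : ℤ) ≤ k - 2 := by linarith
          positivity
        have h8 : ((s : ℤ) * (k - 2) + gap A k j) * ((1 + s) * (s + (k - 2)) + (k - 2) ^ 2) ≤
            (s * (k - 2) - 1) * ((1 + s) * (s + (k - 2)) + (k - 2) ^ 2) :=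
          mul_le_mul_of_nonneg_right (by linarith) hC
        have h9 : (0 : ℤ) ≤ s * (j + 1 - (k - 2) - s) := mul_nonneg (by linarith) (by linarith)
        have h10 : (0 : ℤ) ≤ (1 + s) * (j + 1 - s) := mul_nonneg (by linarith) (by linarith)
        have h11 : ((s : ℤ) * (j + 1 - (k - 2) - s) + 1) * ((1 + s) * (j + 1 - s) + (k - 2) + 1) ≤
            (s * (j + 1 - (k - 2) - s) - gap A k j)
              * ((1 + s) * (j + 1 - s) + (k - 2) - gap A k j) :=
          mul_le_mul (by linarith) (by linarith) (by linarith) (by linarith)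
        linarith
    · have hk14' : (14 : ℤ) ≤ k := by exact_mod_cast not_lt.1 hk14
      have hp := polyK (K := (k : ℤ) - 2) (v := (j : ℤ) + 2) (a := 1 + s) (by linarith)
        (by linarith) (by linarith) (by
          have e1 : (k : ℤ) - 2 + 2 = k := by ring
          have e2 : (j : ℤ) + 2 + (k - 2) = k + j := by ring
          rw [e1, e2]
          exact hn) (by linarith)
      have e1 : (j : ℤ) + 2 - (k - 2) - (1 + s) = j + 1 - (k - 2) - s := by ring
      have e2 : (j : ℤ) + 2 - (1 + s) = j + 1 - s := by ring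
      have e3 : (k : ℤ) - 2 + (1 + s) - 1 = s + (k - 2) := by ring
      rw [e1, e2, e3] at hp
      have hC : (0 : ℤ) < (1 + s) * (s + (k - 2)) + (k - 2) ^ 2 := by
        have : (0 : ℤ) < k - 2 := by linarith
        positivity
      have h10 : (0 : ℤ) ≤ (1 + s) * (j + 1 - s) := mul_nonneg (by linarith) (by linarith)
      have hpos' : (0 : ℤ) < j + 1 - (k - 2) - s := by
        by_contra hcc
        push Not at hcc
        have h12 : ((j : ℤ) + 1 - (k - 2) - s) * ((1 + s) * (j + 1 - s) + (k - 2)) ≤ 0 :=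
          mul_nonpos_of_nonpos_of_nonneg hcc (by linarith)
        have h13 : (0 : ℤ) < (k - 2) * ((1 + s) * (s + (k - 2)) + (k - 2) ^ 2) :=
          mul_pos (by linarith) hC
        linarith
      have hP := P1 (K := (k : ℤ) - 2) (j := j) (s := s) (g := gap A k j) (by linarith)
        (by linarith) hgap (by linarith) a' b c' d e
      have h14 : (s : ℤ) * ((k - 2) * ((1 + s) * (s + (k - 2)) + (k - 2) ^ 2)) ≤
          s * ((j + 1 - (k - 2) - s) * ((1 + s) * (j + 1 - s) + (k - 2))) :=
        mul_le_mul_of_nonneg_left hp (by linarith)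
      have h15 : (s : ℤ) * (j + 1 - (k - 2) - s) * ((1 + s) * (j + 1 - s) + (k - 2)) ≤
            (s * (j + 1 - (k - 2) - s) - gap A k j)
              * ((1 + s) * (j + 1 - s) + (k - 2) - gap A k j) :=
        mul_le_mul (by linarith) (by linarith) (by linarith)
          (by have := mul_pos (by linarith : (0:ℤ) < s) hpos'; linarith)
      have h16 : gap A k j * ((1 + s) * (s + (k - 2)) + (k - 2) ^ 2) < 0 :=
        mul_neg_of_neg_of_pos (by linarith) hC
      nlinarith
  · have : (k : ℤ) + j ≤ k + 5 := by exact_mod_cast h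
    linarith
  · have h' : (j : ℤ) * (k - 4) ≤ 2 * k + 4 := by
      have h4 : 4 ≤ k := by omega
      zify [h4] at h
      exact h
    have hex : ex A k j s = j * (k - 2 - s) - s * k + gap A k j := rfl
    have hE := lemE hX hY hA (s : ℤ) (by linarith) r hpos hrow' hcol' hgap
    by_cases hs3 : 3 ≤ s
    · have hs3' : (3 : ℤ) ≤ s := by exact_mod_cast hs3
      have h5 : ex A k j s < 0 := by
        rw [hex]
        nlinarith
      have := (hE (by linarith) c1).1
      linarith
    · have hs22 : s = 2 := by omega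
      subst hs22
      push_cast at *
      have h6 : ex A k j 2 ≤ 3 := by
        rw [hex]
        linarith
      have h7 := hE (by linarith) c1
      have hk6 : k ≤ 6 := by
        have : (k : ℤ) ≤ 6 := by linarith [h7.1]
        exact_mod_cast this
      have hk5 : 5 ≤ k := by exact_mod_cast c1
      interval_cases k
      · push_cast at *
        have : (j : ℤ) ≥ 11 := by linarith
        exact c4 (by linarith)
      · push_cast at *
        have h8 : ex A 6 j 2 = 3 := by linarith [h7.1]
        have h9 := h7.2 (by linarith)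
        linarith

theorem upper {n : ℕ} (hX : Fintype.card X = n) (hY : Fintype.card Y = n) (hA : Good A k)
    (hk : 2 ≤ k) (hkn : k ≤ n)
    (h : k ^ 3 < n ^ 2 ∨ n ≤ k + 5 ∨ (n - k) * (k - 4) ≤ 2 * k + 4) :
    T A ≤ k + (n - k) ^ 2 + 3 * (n - k) := by
  classical
  have hX0 : (univ : Finset X).Nonempty := by
    rw [← card_pos, card_univ]; omega
  have hY0 : (univ : Finset Y).Nonempty := by
    rw [← card_pos, card_univ]; omega
  obtain ⟨r, -, hr⟩ := exists_max_image univ (fun x => (N A x).card) hX0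
  obtain ⟨c, -, hc⟩ := exists_max_image univ (fun y => (N (flip A) y).card) hY0
  rcases le_total (N (flip A) c).card (N A r).card with h1 | h1
  · exact upper_row hX hY hA hk hkn r (fun x => hr x (mem_univ _))
      (fun y => (hc y (mem_univ _)).trans h1) h
  · rw [← T_flip]
    exact upper_row (A := flip A) hY hX hA.flip hk hkn c (fun y => hc y (mem_univ _))
      (fun x => (hr x (mem_univ _)).trans h1) h

end Pool.Agent.H37.Forcing
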