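import Mathlib
import Pool.Agent.H37.ForcingDefs
import Pool.Agent.H37.ForcingUpper

/-!
# Strongly forcing matrices: the translation and the lower bound
-/

namespace Pool.Agent.H37.Forcing

open Finset

section translate

variable {n k : ℕ} {A : Matrix (Fin n) (Fin n) ℕ}

lemma good_of_forcing (σ : Equiv.Perm (Fin k)) (hA : StronglyForcing (σ.permMatrix ℕ) A) :
    Good (fun r c => A r c = 1) k := by
  intro r c hrc
  obtain ⟨ρ, γ, ⟨a, rfl⟩, ⟨b, rfl⟩, h⟩ := hA r c hrc
  have key : ∀ a b, A (ρ a) (γ b) = 1 ↔ σ a = b := by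
    intro a b
    have h1 := congrFun (congrFun h a) b
    rw [Matrix.submatrix_apply] at h1
    rw [h1, Equiv.Perm.permMatrix, PEquiv.toMatrix_apply]
    simp only [Equiv.toPEquiv_apply, Option.mem_def, Option.some.injEq]
    split_ifs with h <;> simp [h]
  refine ⟨fun i => ρ i, fun i => γ (σ i), fun i i' => ?_, a, rfl, ?_⟩
  · show A (ρ i) (γ (σ i')) = 1 ↔ i = i'
    rw [key]
    exact σ.injective.eq_iff
  · rw [key] at hrc
    simp only [hrc]

lemma T_eq (h01 : ZeroOne A) : T (fun r c => A r c = 1) = ∑ i, ∑ j, A i j := by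
  classical
  unfold T
  apply sum_congr rfl
  intro i _
  unfold N
  rw [card_filter]
  apply sum_congr rfl
  intro j _
  rcases h01 i j with h | h <;> simp [h]

end translate

section lower

variable {p q : ℕ}

/-- the matrix `I_p ⊕ (J_q - H_q)` -/
def S (p q : ℕ) : Matrix (Fin (p + q)) (Fin (p + q)) ℕ := fun i j =>
  if (i.1 < p ∧ i.1 = j.1) ∨ (p ≤ i.1 ∧ p ≤ j.1 ∧ i.1 + j.1 + 1 ≠ p + q + p) then 1 else 0

lemma S_zeroOne : ZeroOne (S p q) := by
  intro i j
  unfold S
  split_ifs
  · exact Or.inr rfl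
  · exact Or.inl rfl

/-- the increasing selection `0, …, p - 1, a, b` -/
def sel (p q : ℕ) (a b : Fin (p + q)) : Fin (p + 2) → Fin (p + q) := fun i =>
  if h : i.1 < p then ⟨i.1, by omega⟩ else if i.1 = p then a else b

lemma sel_strictMono {a b : Fin (p + q)} (ha : p ≤ a.1) (hab : a.1 < b.1) :
    StrictMono (sel p q a b) := by
  intro i j hij
  have hij' : i.1 < j.1 := hij
  rw [Fin.lt_def]
  unfold sel
  split_ifs <;> (try simp only) <;> omega

lemma S_sub {a b c d : Fin (p + q)} (ha : p ≤ a.1) (_hc : p ≤ c.1)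
    (hab : a.1 < b.1) (_hcd : c.1 < d.1) (h1 : a.1 + d.1 + 1 = p + q + p)
    (h2 : b.1 + c.1 + 1 = p + q + p) :
    (S p q).submatrix (sel p q a b) (sel p q c d) = 1 := by
  ext i j
  rw [Matrix.submatrix_apply, Matrix.one_apply]
  have hi := i.2
  have hj := j.2
  have hij : i = j ↔ i.1 = j.1 := Fin.ext_iff
  unfold S
  by_cases h : i.1 = j.1
  · rw [if_pos (hij.2 h), if_pos]
    unfold sel
    split_ifs <;> (try simp only) <;> omega
  · rw [if_neg (fun h' => h (hij.1 h')), if_neg]
    unfold sel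
    split_ifs <;> (try simp only) <;> omega

lemma S_forcing (hq : 2 ≤ q) :
    StronglyForcing (1 : Matrix (Fin (p + 2)) (Fin (p + 2)) ℕ) (S p q) := by
  have main : ∀ a b c d : Fin (p + q), p ≤ a.1 → p ≤ c.1 → a.1 < b.1 → c.1 < d.1 →
      a.1 + d.1 + 1 = p + q + p → b.1 + c.1 + 1 = p + q + p →
      ∀ r c' : Fin (p + q), ((r = a ∧ c' = c) ∨ (r = b ∧ c' = d) ∨ (r.1 < p ∧ r = c')) →
      ∃ ρ γ : Fin (p + 2) ↪o Fin (p + q),
        r ∈ Set.range ρ ∧ c' ∈ Set.range γ ∧ (S p q).submatrix ρ γ = 1 := by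
    intro a b c d ha hc hab hcd h1 h2 r c' h
    refine ⟨OrderEmbedding.ofStrictMono _ (sel_strictMono ha hab),
      OrderEmbedding.ofStrictMono _ (sel_strictMono hc hcd), ?_, ?_, ?_⟩
    · rcases h with ⟨rfl, rfl⟩ | ⟨rfl, rfl⟩ | ⟨h, rfl⟩
      · refine ⟨⟨p, by omega⟩, ?_⟩
        rw [OrderEmbedding.coe_ofStrictMono]
        simp [sel]
      · refine ⟨⟨p + 1, by omega⟩, ?_⟩
        rw [OrderEmbedding.coe_ofStrictMono]
        simp [sel]
      · refine ⟨⟨r.1, by omega⟩, ?_⟩
        rw [OrderEmbedding.coe_ofStrictMono]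
        simp [sel, h]
    · rcases h with ⟨rfl, rfl⟩ | ⟨rfl, rfl⟩ | ⟨h, rfl⟩
      · refine ⟨⟨p, by omega⟩, ?_⟩
        rw [OrderEmbedding.coe_ofStrictMono]
        simp [sel]
      · refine ⟨⟨p + 1, by omega⟩, ?_⟩
        rw [OrderEmbedding.coe_ofStrictMono]
        simp [sel]
      · refine ⟨⟨r.1, by omega⟩, ?_⟩
        rw [OrderEmbedding.coe_ofStrictMono]
        simp [sel, h]
    · rw [OrderEmbedding.coe_ofStrictMono, OrderEmbedding.coe_ofStrictMono]
      exact S_sub ha hc hab hcd h1 h2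
  intro r c hrc
  unfold S at hrc
  split_ifs at hrc with h
  · rcases h with ⟨h, h'⟩ | ⟨h1, h2, h3⟩
    · exact main ⟨p, by omega⟩ ⟨p + q - 1, by omega⟩ ⟨p, by omega⟩ ⟨p + q - 1, by omega⟩
        (by simp) (by simp) (by simp only; omega) (by simp only; omega) (by simp only; omega)
        (by simp only; omega) r c (Or.inr (Or.inr ⟨h, Fin.ext h'⟩))
    · have hr := r.2
      have hc := c.2
      rcases lt_or_gt_of_ne h3 with h4 | h4
      · exact main r ⟨p + q + p - 1 - c.1, by omega⟩ c ⟨p + q + p - 1 - r.1, by omega⟩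
          h1 h2 (by simp only; omega) (by simp only; omega) (by simp only; omega)
          (by simp only; omega) r c (Or.inl ⟨rfl, rfl⟩)
      · exact main ⟨p + q + p - 1 - c.1, by omega⟩ r ⟨p + q + p - 1 - r.1, by omega⟩ c
          (by simp only; omega) (by simp only; omega) (by simp only; omega) (by simp only; omega)
          (by simp only; omega)
          (by simp only; omega) r c (Or.inr (Or.inl ⟨rfl, rfl⟩))

lemma S_sum : ∑ i, ∑ j, S p q i j = p + q * (q - 1) := by
  rw [Fin.sum_univ_add]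
  have h1 : ∀ i : Fin p, ∑ j, S p q (Fin.castAdd q i) j = 1 := by
    intro i
    rw [Fin.sum_univ_add, sum_eq_single i]
    · have : ∑ j : Fin q, S p q (Fin.castAdd q i) (Fin.natAdd p j) = 0 := by
        apply sum_eq_zero
        intro j _
        unfold S
        rw [if_neg]
        simp only [Fin.val_castAdd, Fin.val_natAdd]
        have := i.2
        omega
      rw [this]
      unfold S
      rw [if_pos]
      simp
    · intro j _ hj
      unfold S
      rw [if_neg]
      simp only [Fin.val_castAdd]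
      have := i.2
      have : i.1 ≠ j.1 := fun h => hj (Fin.ext h.symm)
      omega
    · intro h; exact absurd (mem_univ _) h
  have h2 : ∀ i : Fin q, ∑ j, S p q (Fin.natAdd p i) j = q - 1 := by
    intro i
    rw [Fin.sum_univ_add]
    have h3 : ∑ j : Fin p, S p q (Fin.natAdd p i) (Fin.castAdd q j) = 0 := by
      apply sum_eq_zero
      intro j _
      unfold S
      rw [if_neg]
      simp only [Fin.val_castAdd, Fin.val_natAdd]
      have := j.2
      omega
    have h4 : ∀ j : Fin q, S p q (Fin.natAdd p i) (Fin.natAdd p j) =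
        if j ≠ Fin.rev i then 1 else 0 := by
      intro j
      unfold S
      have hi := i.2
      have hj := j.2
      have h5 : j ≠ Fin.rev i ↔ i.1 + j.1 + 1 ≠ q := by
        rw [Ne, Fin.ext_iff, Fin.val_rev]
        omega
      by_cases h6 : i.1 + j.1 + 1 = q
      · rw [if_neg, if_neg (fun h => h5.1 h h6)]
        simp only [Fin.val_natAdd]
        omega
      · rw [if_pos, if_pos (h5.2 h6)]
        simp only [Fin.val_natAdd]
        omega
    rw [h3, zero_add]
    simp only [h4]
    rw [← card_filter, filter_ne', card_erase_of_mem (mem_univ _), card_univ, Fintype.card_fin]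
  rw [sum_congr rfl (fun i _ => h1 i), sum_congr rfl (fun i _ => h2 i)]
  simp

end lower

end Pool.Agent.H37.Forcing
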